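import Mathlib
import Pool.Agent.R503.SIC.Base

set_option autoImplicit false

/-! # Fiducial vectors constant on quadratic residues: quartic sums -/

namespace Pool.Agent.K3h22.SL

open Finset Complex
open scoped ComplexConjugate
open Pool.Agent.R503.SIC

/-- quartic sum -/
noncomputable def TT {d : ℕ} [NeZero d] (ψ : ZMod d → ℂ) (a k : ZMod d) : ℂ :=
  ∑ j, ψ j * conj (ψ (j + a)) * conj (ψ (j + k)) * ψ (j + a + k)

theorem sum_ov {d : ℕ} [NeZero d] (ψ : ZMod d → ℂ) (a k : ZMod d) :
    ∑ b, e (b * k) * (ov ψ a b * conj (ov ψ a b)) = (d : ℂ) * TT ψ a k := by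
  have h1 : ∀ b : ZMod d, e (b * k) * (ov ψ a b * conj (ov ψ a b)) =
      ∑ j, ∑ l, (conj (ψ (j + a)) * ψ j * ψ (l + a) * conj (ψ l)) * e (b * (k + j - l)) := by
    intro b
    unfold ov
    rw [map_sum, Finset.sum_mul_sum, Finset.mul_sum]
    refine Finset.sum_congr rfl fun j _ => ?_
    rw [Finset.mul_sum]
    refine Finset.sum_congr rfl fun l _ => ?_
    simp only [map_mul, Complex.conj_conj, conj_e]
    have h2 : e (b * (k + j - l)) = e (b * k) * e (b * j) * e (-(b * l)) := by
      rw [← e_add, ← e_add]; congr 1; ring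
    rw [h2]; ring
  rw [Finset.sum_congr rfl fun b _ => h1 b, Finset.sum_comm]
  unfold TT
  rw [Finset.mul_sum]
  refine Finset.sum_congr rfl fun j _ => ?_
  rw [Finset.sum_comm]
  have h3 : ∀ l : ZMod d, ∑ b : ZMod d, (conj (ψ (j + a)) * ψ j * ψ (l + a) * conj (ψ l)) *
      e (b * (k + j - l)) = if l = k + j then
        (d : ℂ) * (conj (ψ (j + a)) * ψ j * ψ (l + a) * conj (ψ l)) else 0 := by
    intro l
    rw [← Finset.mul_sum, sum_e]
    by_cases hl : l = k + j
    · rw [if_pos hl, if_pos (by rw [hl]; ring)]; ring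
    · rw [if_neg hl, if_neg (fun h => hl (by linear_combination -h)), mul_zero]
  rw [Finset.sum_congr rfl fun l _ => h3 l, Finset.sum_ite_eq', if_pos (Finset.mem_univ _)]
  have e1 : k + j = j + k := by ring
  have e2 : j + k + a = j + a + k := by ring
  rw [e1, e2]; ring

theorem TT_eq {d : ℕ} [NeZero d] {ψ : ZMod d → ℂ} (h : Fid ψ) (a k : ZMod d) :
    TT ψ a k = ((if a = 0 then 1 else 0) + (if k = 0 then 1 else 0)) / ((d : ℂ) + 1) := by
  have hd : (d : ℂ) ≠ 0 := Nat.cast_ne_zero.2 (NeZero.ne d)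
  have hd1 : (d : ℂ) + 1 ≠ 0 := Nat.cast_add_one_ne_zero d
  have h0 := sum_ov ψ a k
  have h1 : ∀ b : ZMod d, ov ψ a b * conj (ov ψ a b) =
      1 / ((d : ℂ) + 1) + (if b = 0 then (if a = 0 then (d : ℂ) / ((d : ℂ) + 1) else 0) else 0) := by
    intro b
    rw [mul_comm, conj_mul_self']
    by_cases hb : b = 0
    · rw [if_pos hb]
      by_cases ha : a = 0
      · rw [if_pos ha, ha, hb, ov_zero h.1]
        simp only [norm_one, one_pow, Complex.ofReal_one]
        field_simp
        ring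
      · rw [if_neg ha, h.2 a b (fun h' => ha (Prod.mk.inj h').1)]
        push_cast; ring
    · rw [if_neg hb, h.2 a b (fun h' => hb (Prod.mk.inj h').2)]
      push_cast; ring
  have h2 : ∑ b : ZMod d, e (b * k) * (ov ψ a b * conj (ov ψ a b)) =
      (1 / ((d : ℂ) + 1)) * (if k = 0 then (d : ℂ) else 0) +
        (if a = 0 then (d : ℂ) / ((d : ℂ) + 1) else 0) := by
    have h3 : ∀ b : ZMod d, e (b * k) * (ov ψ a b * conj (ov ψ a b)) =
        (1 / ((d : ℂ) + 1)) * e (b * k) +
          (if b = 0 then (if a = 0 then (d : ℂ) / ((d : ℂ) + 1) else 0) else 0) := by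
      intro b
      rw [h1 b]
      by_cases hb : b = 0
      · rw [if_pos hb, hb, zero_mul, e_zero]; ring
      · rw [if_neg hb]; ring
    rw [Finset.sum_congr rfl fun b _ => h3 b, Finset.sum_add_distrib, ← Finset.mul_sum, sum_e,
      Finset.sum_ite_eq', if_pos (Finset.mem_univ _)]
  rw [h2] at h0
  rw [eq_div_iff hd1]
  apply mul_left_cancel₀ hd
  rw [← mul_assoc, ← h0]
  by_cases ha : a = 0 <;> by_cases hk : k = 0 <;> simp only [ha, hk, if_true, if_false] <;>
    field_simp <;> ring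

end Pool.Agent.K3h22.SL
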