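import Mathlib
import Pool.Agent.K3h22.SL.A

set_option autoImplicit false

/-! # Fiducial vectors constant on quadratic residues: the expansion of the quartic sums -/

namespace Pool.Agent.K3h22.SL

open Finset Complex
open scoped ComplexConjugate

variable {p : ℕ} [Fact p.Prime]

/-- quadratic character -/
noncomputable def ch (x : ZMod p) : ℤ := quadraticChar (ZMod p) x

theorem ch_zero : ch (0 : ZMod p) = 0 := by unfold ch; simp

theorem ch_mul (x y : ZMod p) : ch (x * y) = ch x * ch y := by unfold ch; rw [map_mul]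

theorem ch_sq {x : ZMod p} (hx : x ≠ 0) : ch x * ch x = 1 := by
  unfold ch
  have := quadraticChar_sq_one hx
  rw [pow_two] at this; exact this

theorem ch_one : ch (1 : ZMod p) = 1 := by unfold ch; simp

theorem ch_neg_one (h3 : p % 4 = 3) : ch (-1 : ZMod p) = -1 := by
  unfold ch
  rw [quadraticChar_neg_one_iff_not_isSquare]
  rw [ZMod.exists_sq_eq_neg_one_iff]
  simp [h3]

theorem ch_neg (h3 : p % 4 = 3) (x : ZMod p) : ch (-x) = - ch x := by
  rw [← neg_one_mul, ch_mul, ch_neg_one h3]; ring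

theorem s0 (hp : p ≠ 2) : ∑ j : ZMod p, ch j = 0 := by
  unfold ch
  exact quadraticChar_sum_zero (by rw [ZMod.ringChar_zmod_n]; exact hp)

theorem s1 (hp : p ≠ 2) (c : ZMod p) : ∑ j : ZMod p, ch (j + c) = 0 := by
  rw [← s0 hp]
  exact Fintype.sum_equiv (Equiv.addRight c) _ _ fun j => rfl

theorem s2' (hp : p ≠ 2) {c : ZMod p} (hc : c ≠ 0) : ∑ j : ZMod p, ch j * ch (j + c) = -1 := by
  have h1 : ∀ j : ZMod p, ch j * ch (j + c) = if j = 0 then 0 else ch (1 + c * j⁻¹) := by
    intro j
    by_cases hj : j = 0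
    · rw [if_pos hj, hj, ch_zero, zero_mul]
    · rw [if_neg hj]
      have h2 : j + c = j * (1 + c * j⁻¹) := by field_simp
      rw [h2, ch_mul, ← mul_assoc, ch_sq hj, one_mul]
  rw [Finset.sum_congr rfl fun j _ => h1 j]
  have h3 : ∑ j : ZMod p, (if j = 0 then (0 : ℤ) else ch (1 + c * j⁻¹)) =
      ∑ t : ZMod p, (if t = 0 then (0 : ℤ) else ch (1 + t)) := by
    have hb : Function.Bijective (fun j : ZMod p => c * j⁻¹) := by
      refine Function.Involutive.bijective fun x => ?_
      by_cases hx : x = 0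
      · simp [hx]
      · field_simp
    refine Fintype.sum_bijective _ hb _ _ fun j => ?_
    by_cases hj : j = 0
    · rw [if_pos hj, if_pos (by simp [hj])]
    · rw [if_neg hj, if_neg (by simp [hj, hc])]
  rw [h3]
  have h4 : ∀ t : ZMod p, (if t = 0 then (0 : ℤ) else ch (1 + t)) =
      ch (t + 1) - (if t = 0 then 1 else 0) := by
    intro t
    by_cases ht : t = 0
    · rw [if_pos ht, if_pos ht, ht, zero_add, ch_one]; norm_num
    · rw [if_neg ht, if_neg ht, add_comm]; ring
  rw [Finset.sum_congr rfl fun t _ => h4 t, Finset.sum_sub_distrib, s1 hp, Finset.sum_ite_eq',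
    if_pos (Finset.mem_univ _)]
  norm_num

theorem s2 (hp : p ≠ 2) {c c' : ZMod p} (hc : c ≠ c') :
    ∑ j : ZMod p, ch (j + c) * ch (j + c') = -1 := by
  rw [← s2' hp (sub_ne_zero.2 (Ne.symm hc))]
  refine Fintype.sum_equiv (Equiv.addRight c) _ _ fun j => ?_
  simp only [Equiv.coe_addRight]
  have : j + c + (c' - c) = j + c' := by ring
  rw [this]

/-- quartic character sum -/
noncomputable def E4 (a k : ZMod p) : ℤ := ∑ j, ch j * ch (j + a) * ch (j + k) * ch (j + a + k)

/-- delta function -/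
noncomputable def dl (j : ZMod p) : ℂ := if j = 0 then 1 else 0

theorem sum_dl (c : ZMod p) (H : ZMod p → ℂ) : ∑ j, dl (j + c) * H j = H (-c) := by
  have h1 : ∀ j : ZMod p, dl (j + c) * H j = if j = -c then H j else 0 := by
    intro j
    unfold dl
    by_cases hj : j = -c
    · rw [if_pos hj, if_pos (by rw [hj]; ring), one_mul]
    · rw [if_neg hj, if_neg (fun h => hj (by linear_combination h)), zero_mul]
  rw [Finset.sum_congr rfl fun j _ => h1 j, Finset.sum_ite_eq', if_pos (Finset.mem_univ _)]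

theorem dl_mul {x y : ZMod p} (h : x ≠ y) (j : ZMod p) : dl (j + x) * dl (j + y) = 0 := by
  unfold dl
  by_cases h1 : j + x = 0
  · rw [if_neg (fun h2 : j + y = 0 => h (by linear_combination h1 - h2)), mul_zero]
  · rw [if_neg h1, zero_mul]

theorem sumF (h3 : p % 4 = 3) (u v u' v' : ℂ) {a k : ZMod p} (ha : a ≠ 0) (hk : k ≠ 0)
    (hak : a ≠ k) (hs : a + k ≠ 0) :
    ∑ j : ZMod p, (u + v * ch j) * (u' + v' * ch (j + a)) * (u' + v' * ch (j + k)) *
      (u + v * ch (j + a + k)) =
    p * (u * u') ^ 2 - 4 * (u * u') * (v * v') - (v ^ 2 * u' ^ 2 + v' ^ 2 * u ^ 2) +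
      (v * v') ^ 2 * E4 a k := by
  have hp : p ≠ 2 := by intro h; rw [h] at h3; norm_num at h3
  have c0 : ∑ j : ZMod p, (ch j : ℂ) = 0 := by exact_mod_cast s0 hp
  have c1 : ∀ c : ZMod p, ∑ j : ZMod p, (ch (j + c) : ℂ) = 0 := fun c => by exact_mod_cast s1 hp c
  have c2 : ∀ {c c' : ZMod p}, c ≠ c' → ∑ j : ZMod p, (ch (j + c) : ℂ) * ch (j + c') = -1 :=
    fun h => by exact_mod_cast s2 hp h
  have c20 : ∀ {c : ZMod p}, c ≠ 0 → ∑ j : ZMod p, (ch j : ℂ) * ch (j + c) = -1 :=
    fun h => by exact_mod_cast s2' hp h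
  have c3 : ∑ j : ZMod p, ((ch j : ℂ) * ch (j + a) * ch (j + k)) +
      ∑ j : ZMod p, ((ch (j + a) : ℂ) * ch (j + k) * ch (j + a + k)) = 0 := by
    have : ∑ j : ZMod p, ((ch j : ℂ) * ch (j + a) * ch (j + k)) =
        ∑ j : ZMod p, -((ch (j + a) : ℂ) * ch (j + k) * ch (j + a + k)) := by
      refine Fintype.sum_equiv (Equiv.subLeft (-(a + k))) _ _ fun j => ?_
      simp only [Equiv.subLeft_apply]
      have e1 : -(a + k) - j + a = -(j + k) := by ring
      have e2 : -(a + k) - j + k = -(j + a) := by ring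
      have e3 : -(a + k) - j + a + k = -j := by ring
      rw [e3, e1, e2, ch_neg h3, ch_neg h3, ch_neg h3]
      push_cast; ring
    rw [this, Finset.sum_neg_distrib]; ring
  have c3' : ∑ j : ZMod p, ((ch j : ℂ) * ch (j + a) * ch (j + a + k)) +
      ∑ j : ZMod p, ((ch j : ℂ) * ch (j + k) * ch (j + a + k)) = 0 := by
    have : ∑ j : ZMod p, ((ch j : ℂ) * ch (j + a) * ch (j + a + k)) =
        ∑ j : ZMod p, -((ch j : ℂ) * ch (j + k) * ch (j + a + k)) := by
      refine Fintype.sum_equiv (Equiv.subLeft (-(a + k))) _ _ fun j => ?_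
      simp only [Equiv.subLeft_apply]
      have e1 : -(a + k) - j = -(j + a + k) := by ring
      have e2 : -(a + k) - j + k = -(j + a) := by ring
      have e3 : -(a + k) - j + a + k = -j := by ring
      rw [e3, e2, e1, ch_neg h3, ch_neg h3, ch_neg h3]
      push_cast; ring
    rw [this, Finset.sum_neg_distrib]; ring
  have c4 : ∑ j : ZMod p, ((ch j : ℂ) * ch (j + a) * ch (j + k) * ch (j + a + k)) = E4 a k := by
    unfold E4; push_cast; rfl
  have hexp : ∀ j : ZMod p, (u + v * ch j) * (u' + v' * ch (j + a)) * (u' + v' * ch (j + k)) *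
      (u + v * ch (j + a + k)) =
      (u * u') ^ 2 + u * u' ^ 2 * v * ch j + u * u' ^ 2 * v * ch (j + (a + k)) +
      u ^ 2 * u' * v' * ch (j + a) + u ^ 2 * u' * v' * ch (j + k) +
      u * u' * v * v' * (ch j * ch (j + a)) + u * u' * v * v' * (ch j * ch (j + k)) +
      v ^ 2 * u' ^ 2 * (ch j * ch (j + (a + k))) + v' ^ 2 * u ^ 2 * (ch (j + a) * ch (j + k)) +
      u * u' * v * v' * (ch (j + a) * ch (j + (a + k))) +
      u * u' * v * v' * (ch (j + k) * ch (j + (a + k))) +
      v * v' ^ 2 * u * (ch j * ch (j + a) * ch (j + k)) +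
      v * v' ^ 2 * u * (ch (j + a) * ch (j + k) * ch (j + a + k)) +
      v ^ 2 * v' * u' * (ch j * ch (j + a) * ch (j + a + k)) +
      v ^ 2 * v' * u' * (ch j * ch (j + k) * ch (j + a + k)) +
      (v * v') ^ 2 * (ch j * ch (j + a) * ch (j + k) * ch (j + a + k)) := by
    intro j
    rw [← add_assoc]; ring
  rw [Finset.sum_congr rfl fun j _ => hexp j]
  simp only [Finset.sum_add_distrib, ← Finset.mul_sum]
  rw [c0, c1, c1, c1, c20 ha, c20 hk, c20 hs, c2 hak, c2 (show a ≠ a + k by
    intro h; exact hk (by linear_combination -h)), c2 (show k ≠ a + k by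
    intro h; exact ha (by linear_combination -h)), c4]
  rw [Finset.sum_const, Finset.card_univ, ZMod.card, nsmul_eq_mul]
  linear_combination (v * v' ^ 2 * u) * c3 + (v ^ 2 * v' * u') * c3'

theorem sumT (h3 : p % 4 = 3) (u v w u' v' w' : ℂ) {a k : ZMod p} (ha : a ≠ 0) (hk : k ≠ 0)
    (hak : a ≠ k) (hs : a + k ≠ 0) :
    ∑ j : ZMod p, (u + v * ch j + w * dl j) * (u' + v' * ch (j + a) + w' * dl (j + a)) *
      (u' + v' * ch (j + k) + w' * dl (j + k)) * (u + v * ch (j + a + k) + w * dl (j + a + k)) =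
    p * (u * u') ^ 2 - 4 * (u * u') * (v * v') - (v ^ 2 * u' ^ 2 + v' ^ 2 * u ^ 2) +
      (v * v') ^ 2 * E4 a k +
      2 * w * (u * u' * u' + u * v' ^ 2 * (ch a * ch k) + u' * (v * v') * ((ch a + ch k) * ch (a + k))) +
      2 * w' * (u * u' * u - u' * v ^ 2 * (ch a * ch k) +
        u * (v * v') * ((ch a - ch k) * ch (a - k))) := by
  have hD : ∀ j : ZMod p, (u + v * ch j + w * dl j) * (u' + v' * ch (j + a) + w' * dl (j + a)) *
      (u' + v' * ch (j + k) + w' * dl (j + k)) * (u + v * ch (j + a + k) + w * dl (j + a + k)) =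
      (u + v * ch j) * (u' + v' * ch (j + a)) * (u' + v' * ch (j + k)) *
      (u + v * ch (j + a + k)) +
      w * (dl (j + 0) * ((u' + v' * ch (j + a)) * (u' + v' * ch (j + k)) * (u + v * ch (j + a + k)))) +
      w' * (dl (j + a) * ((u + v * ch j) * (u' + v' * ch (j + k)) * (u + v * ch (j + a + k)))) +
      w' * (dl (j + k) * ((u + v * ch j) * (u' + v' * ch (j + a)) * (u + v * ch (j + a + k)))) +
      w * (dl (j + (a + k)) * ((u + v * ch j) * (u' + v' * ch (j + a)) * (u' + v' * ch (j + k)))) := by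
    intro j
    have d01 := dl_mul (Ne.symm ha) j
    have d02 := dl_mul (Ne.symm hk) j
    have d03 := dl_mul (Ne.symm hs) j
    have d12 := dl_mul hak j
    have d13 := dl_mul (show a ≠ a + k by intro h; exact hk (by linear_combination -h)) j
    have d23 := dl_mul (show k ≠ a + k by intro h; exact ha (by linear_combination -h)) j
    rw [← add_assoc] at d03 d13 d23 ⊢
    rw [add_zero] at d01 d02 d03 ⊢
    linear_combination
      (w * w' * (u' + v' * ch (j + k) + w' * dl (j + k)) *
        (u + v * ch (j + a + k) + w * dl (j + a + k))) * d01 +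
      (w * w' * (u' + v' * ch (j + a)) * (u + v * ch (j + a + k) + w * dl (j + a + k))) * d02 +
      (w ^ 2 * (u' + v' * ch (j + a)) * (u' + v' * ch (j + k))) * d03 +
      (w' ^ 2 * (u + v * ch j) * (u + v * ch (j + a + k) + w * dl (j + a + k))) * d12 +
      (w * w' * (u + v * ch j) * (u' + v' * ch (j + k))) * d13 +
      (w * w' * (u + v * ch j) * (u' + v' * ch (j + a))) * d23
  rw [Finset.sum_congr rfl fun j _ => hD j]
  simp only [Finset.sum_add_distrib, ← Finset.mul_sum]
  rw [sumF h3 u v u' v' ha hk hak hs]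
  have t0 := sum_dl (p := p) 0 fun j => (u' + v' * ch (j + a)) * (u' + v' * ch (j + k)) *
    (u + v * ch (j + a + k))
  have t1 := sum_dl (p := p) a fun j => (u + v * ch j) * (u' + v' * ch (j + k)) *
    (u + v * ch (j + a + k))
  have t2 := sum_dl (p := p) k fun j => (u + v * ch j) * (u' + v' * ch (j + a)) *
    (u + v * ch (j + a + k))
  have t3 := sum_dl (p := p) (a + k) fun j => (u + v * ch j) * (u' + v' * ch (j + a)) *
    (u' + v' * ch (j + k))
  rw [t0, t1, t2, t3]
  have e0 : -(0 : ZMod p) = 0 := neg_zero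
  have e1 : -a + a + k = k := by ring
  have e2 : -a + k = -(a - k) := by ring
  have e3 : -k + a = a - k := by ring
  have e4 : a - k + k = a := by ring
  have e5 : -(a + k) + a = -k := by ring
  have e6 : -(a + k) + k = -a := by ring
  rw [e0, zero_add, zero_add, e1, e2, e3, e4, e5, e6]
  simp only [ch_neg h3]
  push_cast
  ring

end Pool.Agent.K3h22.SL
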