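import Mathlib
import Pool.Agent.K3h22.SL.B

set_option autoImplicit false

/-! # Quartic character sums with two values: reduction modulo `p` -/

namespace Pool.Agent.K3h22.SL

open Finset

variable {p : ℕ} [Fact p.Prime] {m : ℕ}

theorem chF (hm : p = 2 * m + 1) (_hm0 : 0 < m) (x : ZMod p) : ((ch x : ℤ) : ZMod p) = x ^ m := by
  unfold ch
  have h1 : ringChar (ZMod p) ≠ 2 := by rw [ZMod.ringChar_zmod_n]; omega
  rw [quadraticChar_eq_pow_of_char_ne_two' h1, ZMod.card]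
  congr 1
  omega

theorem pw (hm : p = 2 * m + 1) (hm0 : 0 < m) {i : ℕ} (hi : i < 4 * m) :
    ∑ x : ZMod p, x ^ i = if i = 2 * m then -1 else 0 := by
  have hcard : Fintype.card (ZMod p) - 1 = 2 * m := by rw [ZMod.card]; omega
  have hlt : ∀ i : ℕ, i < 2 * m → ∑ x : ZMod p, x ^ i = 0 := fun i hi =>
    FiniteField.sum_pow_lt_card_sub_one (ZMod p) i (by rw [hcard]; exact hi)
  rcases lt_trichotomy i (2 * m) with h | h | h
  · rw [if_neg h.ne, hlt i h]
  · rw [if_pos h, h]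
    have h1 : ∀ x : ZMod p, x ^ (2 * m) = 1 - (if x = 0 then 1 else 0) := by
      intro x
      by_cases hx : x = 0
      · rw [if_pos hx, hx, zero_pow (by omega), sub_self]
      · rw [if_neg hx, sub_zero]
        have := ZMod.pow_card_sub_one_eq_one hx
        rwa [show p - 1 = 2 * m by omega] at this
    rw [Finset.sum_congr rfl fun x _ => h1 x, Finset.sum_sub_distrib, Finset.sum_ite_eq',
      if_pos (Finset.mem_univ _), Finset.sum_const, Finset.card_univ, nsmul_eq_mul, ZMod.card]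
    simp
  · rw [if_neg h.ne']
    have h1 : ∀ x : ZMod p, x ^ i = x ^ (i - 2 * m) := by
      intro x
      by_cases hx : x = 0
      · rw [hx, zero_pow (by omega), zero_pow (by omega)]
      · have h2 := ZMod.pow_card_sub_one_eq_one hx
        rw [show p - 1 = 2 * m by omega] at h2
        conv_lhs => rw [show i = 2 * m + (i - 2 * m) by omega, pow_add, h2, one_mul]
    rw [Finset.sum_congr rfl fun x _ => h1 x]
    exact hlt _ (by omega)

theorem L0 (hm : p = 2 * m + 1) (hm0 : 0 < m) (c : ZMod p) {s : ℕ} (hs : s < 3 * m) :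
    ∑ x : ZMod p, x ^ s * (x + c) ^ m =
      ∑ t ∈ range (m + 1), (if s + t = 2 * m then -((m.choose t : ℕ) * c ^ (m - t) : ZMod p) else 0) := by
  have h1 : ∀ x : ZMod p, x ^ s * (x + c) ^ m =
      ∑ t ∈ range (m + 1), (c ^ (m - t) * (m.choose t : ℕ)) * x ^ (s + t) := by
    intro x
    rw [add_pow, Finset.mul_sum]
    refine Finset.sum_congr rfl fun t _ => ?_
    rw [pow_add]; ring
  rw [Finset.sum_congr rfl fun x _ => h1 x, Finset.sum_comm]
  refine Finset.sum_congr rfl fun t ht => ?_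
  have ht' : t ≤ m := by rw [mem_range] at ht; omega
  rw [← Finset.mul_sum, pw hm hm0 (by omega)]
  split_ifs <;> ring

theorem L1 (hm : p = 2 * m + 1) (hm0 : 0 < m) (c : ZMod p) {s : ℕ} (hs : s < m) :
    ∑ x : ZMod p, x ^ s * (x + c) ^ m = 0 := by
  rw [L0 hm hm0 c (by omega)]
  refine Finset.sum_eq_zero fun t ht => ?_
  rw [mem_range] at ht
  rw [if_neg (by omega)]

theorem L2 (hm : p = 2 * m + 1) (hm0 : 0 < m) (c : ZMod p) {n : ℕ} (hn : n ≤ m) (hn' : n < 2 * m) :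
    ∑ x : ZMod p, x ^ (m + n) * (x + c) ^ m = -((m.choose n : ℕ) * c ^ n) := by
  rw [L0 hm hm0 c (by omega), Finset.sum_eq_single (m - n)]
  · rw [if_pos (by omega), Nat.choose_symm hn]
    congr 3
    omega
  · intro t ht h
    rw [mem_range] at ht
    rw [if_neg (by omega)]
  · intro h
    exact absurd (mem_range.2 (by omega)) h

/-- moments of the centred product -/
noncomputable def nu (p : ℕ) [Fact p.Prime] (m r : ℕ) : ZMod p :=
  ∑ x : ZMod p, x ^ r * (x ^ 2 - 1) ^ m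

theorem nu_eq (hm : p = 2 * m + 1) (hm0 : 0 < m) {r : ℕ} (hr : r < 2 * m) :
    nu p m r = ∑ t ∈ range (m + 1),
      (if r + 2 * t = 2 * m then -((m.choose t : ℕ) * (-1) ^ (m - t) : ZMod p) else 0) := by
  unfold nu
  have h1 : ∀ x : ZMod p, x ^ r * (x ^ 2 - 1) ^ m =
      ∑ t ∈ range (m + 1), ((-1) ^ (m - t) * (m.choose t : ℕ)) * x ^ (r + 2 * t) := by
    intro x
    rw [sub_eq_add_neg, add_pow, Finset.mul_sum]
    refine Finset.sum_congr rfl fun t _ => ?_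
    rw [pow_add, pow_mul]; ring
  rw [Finset.sum_congr rfl fun x _ => h1 x, Finset.sum_comm]
  refine Finset.sum_congr rfl fun t ht => ?_
  have ht' : t ≤ m := by rw [mem_range] at ht; omega
  rw [← Finset.mul_sum, pw hm hm0 (by omega)]
  split_ifs <;> ring

theorem nu_odd (hm : p = 2 * m + 1) (hm0 : 0 < m) {r : ℕ} (hr : 2 * r + 1 < 2 * m) :
    nu p m (2 * r + 1) = 0 := by
  rw [nu_eq hm hm0 hr]
  refine Finset.sum_eq_zero fun t ht => ?_
  rw [if_neg (by omega)]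

theorem nu_even (hm : p = 2 * m + 1) (hm0 : 0 < m) {r : ℕ} (hr : r < m) :
    nu p m (2 * r) = -((m.choose r : ℕ) * (-1) ^ r) := by
  rw [nu_eq hm hm0 (by omega), Finset.sum_eq_single (m - r)]
  · rw [if_pos (by omega), Nat.choose_symm hr.le]
    congr 3
    omega
  · intro t ht h
    rw [mem_range] at ht
    rw [if_neg (by omega)]
  · intro h
    exact absurd (mem_range.2 (by omega)) h

/-- the quartic sums for `a = 2` as a correlation -/
theorem E4_two (hm : p = 2 * m + 1) (hm0 : 0 < m) (i : ZMod p) :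
    ((E4 2 i : ℤ) : ZMod p) = ∑ j : ZMod p, (j ^ 2 - 1) ^ m * ((j + i) ^ 2 - 1) ^ m := by
  unfold E4
  push_cast
  simp only [chF hm hm0]
  refine Fintype.sum_equiv (Equiv.addRight 1) _ _ fun j => ?_
  simp only [Equiv.coe_addRight]
  rw [← mul_pow, ← mul_pow, ← mul_pow, ← mul_pow]
  congr 1
  ring

theorem corr (f g : ZMod p → ZMod p) (H : ZMod p → ZMod p) :
    ∑ i, H i * ∑ j, f j * g (j + i) = ∑ j, ∑ l, f j * g l * H (l - j) := by
  simp only [Finset.mul_sum]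
  rw [Finset.sum_comm]
  refine Finset.sum_congr rfl fun j _ => ?_
  refine Fintype.sum_equiv (Equiv.addLeft j) _ _ fun i => ?_
  simp only [Equiv.coe_addLeft]
  have : j + i - j = i := by ring
  rw [this]; ring

theorem mom2 (hm : p = 2 * m + 1) (hm0 : 0 < m) :
    ∑ i : ZMod p, i ^ 2 * ((E4 2 i : ℤ) : ZMod p) =
      2 * nu p m 0 * nu p m 2 - 2 * nu p m 1 ^ 2 := by
  simp only [E4_two hm hm0]
  rw [corr (fun j => (j ^ 2 - 1) ^ m) (fun j => (j ^ 2 - 1) ^ m) (fun i => i ^ 2)]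
  unfold nu
  have h1 : ∀ j l : ZMod p, (j ^ 2 - 1) ^ m * (l ^ 2 - 1) ^ m * (l - j) ^ 2 =
      (j ^ 0 * (j ^ 2 - 1) ^ m) * (l ^ 2 * (l ^ 2 - 1) ^ m)
      - 2 * ((j ^ 1 * (j ^ 2 - 1) ^ m) * (l ^ 1 * (l ^ 2 - 1) ^ m))
      + (j ^ 2 * (j ^ 2 - 1) ^ m) * (l ^ 0 * (l ^ 2 - 1) ^ m) := by
    intro j l; ring
  simp only [h1, Finset.sum_add_distrib, Finset.sum_sub_distrib, ← Finset.mul_sum, ← Finset.sum_mul]
  ring

theorem mom4 (hm : p = 2 * m + 1) (hm0 : 0 < m) :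
    ∑ i : ZMod p, i ^ 4 * ((E4 2 i : ℤ) : ZMod p) =
      2 * nu p m 0 * nu p m 4 - 8 * (nu p m 1 * nu p m 3) + 6 * nu p m 2 ^ 2 := by
  simp only [E4_two hm hm0]
  rw [corr (fun j => (j ^ 2 - 1) ^ m) (fun j => (j ^ 2 - 1) ^ m) (fun i => i ^ 4)]
  unfold nu
  have h1 : ∀ j l : ZMod p, (j ^ 2 - 1) ^ m * (l ^ 2 - 1) ^ m * (l - j) ^ 4 =
      (j ^ 0 * (j ^ 2 - 1) ^ m) * (l ^ 4 * (l ^ 2 - 1) ^ m)
      - 4 * ((j ^ 1 * (j ^ 2 - 1) ^ m) * (l ^ 3 * (l ^ 2 - 1) ^ m))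
      + 6 * ((j ^ 2 * (j ^ 2 - 1) ^ m) * (l ^ 2 * (l ^ 2 - 1) ^ m))
      - 4 * ((j ^ 3 * (j ^ 2 - 1) ^ m) * (l ^ 1 * (l ^ 2 - 1) ^ m))
      + (j ^ 4 * (j ^ 2 - 1) ^ m) * (l ^ 0 * (l ^ 2 - 1) ^ m) := by
    intro j l; ring
  simp only [h1, Finset.sum_add_distrib, Finset.sum_sub_distrib, ← Finset.mul_sum, ← Finset.sum_mul]
  ring

theorem mom6 (hm : p = 2 * m + 1) (hm0 : 0 < m) :
    ∑ i : ZMod p, i ^ 6 * ((E4 2 i : ℤ) : ZMod p) =
      2 * nu p m 0 * nu p m 6 - 12 * (nu p m 1 * nu p m 5) + 30 * (nu p m 2 * nu p m 4)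
      - 20 * nu p m 3 ^ 2 := by
  simp only [E4_two hm hm0]
  rw [corr (fun j => (j ^ 2 - 1) ^ m) (fun j => (j ^ 2 - 1) ^ m) (fun i => i ^ 6)]
  unfold nu
  have h1 : ∀ j l : ZMod p, (j ^ 2 - 1) ^ m * (l ^ 2 - 1) ^ m * (l - j) ^ 6 =
      (j ^ 0 * (j ^ 2 - 1) ^ m) * (l ^ 6 * (l ^ 2 - 1) ^ m)
      - 6 * ((j ^ 1 * (j ^ 2 - 1) ^ m) * (l ^ 5 * (l ^ 2 - 1) ^ m))
      + 15 * ((j ^ 2 * (j ^ 2 - 1) ^ m) * (l ^ 4 * (l ^ 2 - 1) ^ m))
      - 20 * ((j ^ 3 * (j ^ 2 - 1) ^ m) * (l ^ 3 * (l ^ 2 - 1) ^ m))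
      + 15 * ((j ^ 4 * (j ^ 2 - 1) ^ m) * (l ^ 2 * (l ^ 2 - 1) ^ m))
      - 6 * ((j ^ 5 * (j ^ 2 - 1) ^ m) * (l ^ 1 * (l ^ 2 - 1) ^ m))
      + (j ^ 6 * (j ^ 2 - 1) ^ m) * (l ^ 0 * (l ^ 2 - 1) ^ m) := by
    intro j l; ring
  simp only [h1, Finset.sum_add_distrib, Finset.sum_sub_distrib, ← Finset.mul_sum, ← Finset.sum_mul]
  ring

/-- the sign -/
noncomputable def th (a k : ZMod p) : ℤ := (ch a + ch k) * ch (a + k) + (ch a - ch k) * ch (a - k)

theorem mom_th (hm : p = 2 * m + 1) (hm0 : 0 < m) (h3 : p % 4 = 3) {n : ℕ} (hn : n < m) :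
    ∑ i : ZMod p, i ^ n * ((th 2 i : ℤ) : ZMod p) =
      -((m.choose n : ℕ) * 2 ^ n) - ((m.choose n : ℕ) * (-2) ^ n) := by
  have h1 : ∀ i : ZMod p, i ^ n * ((th 2 i : ℤ) : ZMod p) =
      (2 : ZMod p) ^ m * (i ^ n * (i + 2) ^ m) - (2 : ZMod p) ^ m * (i ^ n * (i + (-2)) ^ m)
      + i ^ (m + n) * (i + 2) ^ m + i ^ (m + n) * (i + (-2)) ^ m := by
    intro i
    have e1 : (2 : ZMod p) - i = -(i + (-2)) := by ring
    have e2 : (2 : ZMod p) + i = i + 2 := by ring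
    unfold th
    rw [e1, e2, ch_neg h3]
    push_cast
    simp only [chF hm hm0]
    rw [pow_add]; ring
  rw [Finset.sum_congr rfl fun i _ => h1 i]
  rw [Finset.sum_add_distrib, Finset.sum_add_distrib, Finset.sum_sub_distrib, ← Finset.mul_sum,
    ← Finset.mul_sum, L1 hm hm0 2 hn, L1 hm hm0 (-2) hn, L2 hm hm0 2 hn.le (by omega),
    L2 hm hm0 (-2) hn.le (by omega)]
  ring

theorem E4_pm (hm : p = 2 * m + 1) (hm0 : 1 < m) (h3 : p % 4 = 3) :
    E4 (2 : ZMod p) 2 = 0 ∧ E4 (2 : ZMod p) (-2) = 0 := by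
  have hp : p ≠ 2 := by omega
  have h2 : (2 : ZMod p) ≠ 0 := by
    intro h
    have : (p : ℕ) ∣ 2 := (ZMod.natCast_eq_zero_iff 2 p).1 (by exact_mod_cast h)
    exact absurd (Nat.le_of_dvd (by norm_num) this) (by omega)
  have h4 : (4 : ZMod p) ≠ 0 := by
    have : (4 : ZMod p) = 2 * 2 := by norm_num
    rw [this]; exact mul_ne_zero h2 h2
  have hc : ch (2 : ZMod p) * ch (-2 : ZMod p) = -1 := by
    rw [ch_neg h3]
    linear_combination -ch_sq h2
  constructor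
  · unfold E4
    have h5 : ∀ j : ZMod p, ch j * ch (j + 2) * ch (j + 2) * ch (j + 2 + 2) =
        ch j * ch (j + 4) - (if j = -2 then ch (-2 : ZMod p) * ch (2 : ZMod p) else 0) := by
      intro j
      have e1 : j + 2 + 2 = j + 4 := by ring
      rw [e1]
      by_cases hj : j = -2
      · rw [if_pos hj, hj, neg_add_cancel, ch_zero]
        have e2 : (-2 : ZMod p) + 4 = 2 := by ring
        rw [e2]; ring
      · rw [if_neg hj]
        have := ch_sq (show j + 2 ≠ 0 from fun h => hj (by linear_combination h))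
        linear_combination (ch j * ch (j + 4)) * this
    rw [Finset.sum_congr rfl fun j _ => h5 j, Finset.sum_sub_distrib, Finset.sum_ite_eq',
      if_pos (Finset.mem_univ _), s2' hp h4]
    linear_combination -hc
  · unfold E4
    have h5 : ∀ j : ZMod p, ch j * ch (j + 2) * ch (j + -2) * ch (j + 2 + -2) =
        ch (j + 2) * ch (j + -2) - (if j = 0 then ch (2 : ZMod p) * ch (-2 : ZMod p) else 0) := by
      intro j
      have e1 : j + 2 + -2 = j := by ring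
      rw [e1]
      by_cases hj : j = 0
      · rw [if_pos hj, hj, ch_zero, zero_add, zero_add]; ring
      · rw [if_neg hj]
        have := ch_sq hj
        linear_combination (ch (j + 2) * ch (j + -2)) * this
    rw [Finset.sum_congr rfl fun j _ => h5 j, Finset.sum_sub_distrib, Finset.sum_ite_eq',
      if_pos (Finset.mem_univ _), s2 hp (fun h => h4 (by linear_combination h))]
    linear_combination -hc

end Pool.Agent.K3h22.SL
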