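import Mathlib
import Pool.Agent.K3h22.SL.C

set_option autoImplicit false

/-! # Quartic character sums with two values occur only for `p = 19` (or `p ≤ 11`) -/

namespace Pool.Agent.K3h22.SL

open Finset

variable {p : ℕ} [Fact p.Prime] {m : ℕ}

theorem nz (hm : p = 2 * m + 1) (hm9 : 9 ≤ m) {q : ℕ} (hq0 : 0 < q) (hq : q < 19) :
    (q : ZMod p) ≠ 0 := by
  intro h
  have := Nat.le_of_dvd hq0 ((ZMod.natCast_eq_zero_iff q p).1 h)
  omega

theorem mval (hm : p = 2 * m + 1) (hm9 : 9 ≤ m) : (m : ZMod p) = -1 / 2 := by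
  have h2 : (2 : ZMod p) ≠ 0 := by exact_mod_cast nz hm hm9 (q := 2) (by norm_num) (by norm_num)
  have h1 : ((2 * m + 1 : ℕ) : ZMod p) = 0 := by rw [← hm]; simp
  push_cast at h1
  field_simp
  linear_combination h1

theorem chs (hm : p = 2 * m + 1) (hm9 : 9 ≤ m) (k : ℕ) (hk : k < 7) :
    ((m.choose (k + 1) : ℕ) : ZMod p) * (k + 1) = (m.choose k : ℕ) * (-1 / 2 - k) := by
  have h1 := Nat.choose_succ_right_eq m k
  have h2 : ((m - k : ℕ) : ZMod p) = m - k := by rw [Nat.cast_sub (by omega)]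
  have h3 := congrArg (Nat.cast : ℕ → ZMod p) h1
  push_cast at h3
  rw [h2, mval hm hm9] at h3
  exact h3

theorem choose_vals (hm : p = 2 * m + 1) (hm9 : 9 ≤ m) :
    ((m.choose 1 : ℕ) : ZMod p) = -1 / 2 ∧ ((m.choose 2 : ℕ) : ZMod p) = 3 / 8 ∧
    ((m.choose 3 : ℕ) : ZMod p) = -5 / 16 ∧ ((m.choose 4 : ℕ) : ZMod p) = 35 / 128 ∧
    ((m.choose 6 : ℕ) : ZMod p) = 231 / 1024 := by
  have h2 : (2 : ZMod p) ≠ 0 := by exact_mod_cast nz hm hm9 (q := 2) (by norm_num) (by norm_num)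
  have h3 : (3 : ZMod p) ≠ 0 := by exact_mod_cast nz hm hm9 (q := 3) (by norm_num) (by norm_num)
  have h4 : (4 : ZMod p) ≠ 0 := by exact_mod_cast nz hm hm9 (q := 4) (by norm_num) (by norm_num)
  have h5 : (5 : ZMod p) ≠ 0 := by exact_mod_cast nz hm hm9 (q := 5) (by norm_num) (by norm_num)
  have h6 : (6 : ZMod p) ≠ 0 := by exact_mod_cast nz hm hm9 (q := 6) (by norm_num) (by norm_num)
  have h8 : (8 : ZMod p) ≠ 0 := by exact_mod_cast nz hm hm9 (q := 8) (by norm_num) (by norm_num)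
  have h16 : (16 : ZMod p) ≠ 0 := by exact_mod_cast nz hm hm9 (q := 16) (by norm_num) (by norm_num)
  have h128 : (128 : ZMod p) ≠ 0 := by
    have : (128 : ZMod p) = 8 * 16 := by norm_num
    rw [this]; exact mul_ne_zero h8 h16
  have h256 : (256 : ZMod p) ≠ 0 := by
    have : (256 : ZMod p) = 16 * 16 := by norm_num
    rw [this]; exact mul_ne_zero h16 h16
  have h1024 : (1024 : ZMod p) ≠ 0 := by
    have : (1024 : ZMod p) = 8 * 128 := by norm_num
    rw [this]; exact mul_ne_zero h8 h128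
  have c1 := chs hm hm9 0 (by norm_num)
  have c2 := chs hm hm9 1 (by norm_num)
  have c3 := chs hm hm9 2 (by norm_num)
  have c4 := chs hm hm9 3 (by norm_num)
  have c5 := chs hm hm9 4 (by norm_num)
  have c6 := chs hm hm9 5 (by norm_num)
  simp only [zero_add, Nat.choose_zero_right, Nat.cast_one, Nat.cast_zero, one_mul, mul_one,
    sub_zero] at c1
  norm_num only [Nat.cast_one, Nat.cast_ofNat] at c2 c3 c4 c5 c6
  have d1 : ((m.choose 1 : ℕ) : ZMod p) = -1 / 2 := c1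
  have d2 : ((m.choose 2 : ℕ) : ZMod p) = 3 / 8 := by
    rw [d1] at c2
    apply mul_right_cancel₀ h2
    rw [c2]; field_simp; norm_num
  have d3 : ((m.choose 3 : ℕ) : ZMod p) = -5 / 16 := by
    rw [d2] at c3
    apply mul_right_cancel₀ h3
    rw [c3]; field_simp; norm_num
  have d4 : ((m.choose 4 : ℕ) : ZMod p) = 35 / 128 := by
    rw [d3] at c4
    apply mul_right_cancel₀ h4
    rw [c4]; field_simp; norm_num
  have d5 : ((m.choose 5 : ℕ) : ZMod p) = -63 / 256 := by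
    rw [d4] at c5
    apply mul_right_cancel₀ h5
    rw [c5]; field_simp; norm_num
  have d6 : ((m.choose 6 : ℕ) : ZMod p) = 231 / 1024 := by
    rw [d5] at c6
    apply mul_right_cancel₀ h6
    rw [c6]; field_simp; norm_num
  exact ⟨d1, d2, d3, d4, d6⟩


theorem modp (hm : p = 2 * m + 1) (hm9 : 9 ≤ m) (h3 : p % 4 = 3) (e₁ e₂ : ℤ)
    (h : ∀ i : ZMod p, i ≠ 0 → i ≠ 2 → i ≠ -2 →
      4 * E4 2 i = 2 * (e₁ + e₂) + (e₁ - e₂) * th 2 i) : p = 19 := by
  have hm0 : 0 < m := by omega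
  have h2 : (2 : ZMod p) ≠ 0 := by exact_mod_cast nz hm hm9 (q := 2) (by norm_num) (by norm_num)
  have h4 : (4 : ZMod p) ≠ 0 := by exact_mod_cast nz hm hm9 (q := 4) (by norm_num) (by norm_num)
  have h8 : (8 : ZMod p) ≠ 0 := by exact_mod_cast nz hm hm9 (q := 8) (by norm_num) (by norm_num)
  have h16 : (16 : ZMod p) ≠ 0 := by exact_mod_cast nz hm hm9 (q := 16) (by norm_num) (by norm_num)
  have h128 : (128 : ZMod p) ≠ 0 := by
    have : (128 : ZMod p) = 8 * 16 := by norm_num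
    rw [this]; exact mul_ne_zero h8 h16
  have h1024 : (1024 : ZMod p) ≠ 0 := by
    have : (1024 : ZMod p) = 8 * 128 := by norm_num
    rw [this]; exact mul_ne_zero h8 h128
  have hpm : (2 : ZMod p) ≠ -2 := by
    intro h'
    apply h4
    linear_combination h'
  -- the defect
  obtain ⟨G, hG⟩ : ∃ G : ZMod p → ZMod p, G = fun i => 4 * ((E4 2 i : ℤ) : ZMod p) -
    (2 * ((e₁ : ZMod p) + e₂) + ((e₁ : ZMod p) - e₂) * ((th 2 i : ℤ) : ZMod p)) := ⟨_, rfl⟩
  have hG0 : ∀ i : ZMod p, i ≠ 0 → i ≠ 2 → i ≠ -2 → G i = 0 := by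
    intro i hi0 hi2 hi2'
    have := congrArg (Int.cast : ℤ → ZMod p) (h i hi0 hi2 hi2')
    push_cast at this
    rw [hG]
    simp only
    rw [this]; ring
  have hth : th (2 : ZMod p) 2 = th (2 : ZMod p) (-2) := by
    unfold th
    have e1 : (2 : ZMod p) + 2 = 2 * 2 := by ring
    have e2 : (2 : ZMod p) - 2 = 0 := by ring
    have e3 : (2 : ZMod p) + -2 = 0 := by ring
    have e4 : (2 : ZMod p) - -2 = 2 * 2 := by ring
    rw [e1, e2, e3, e4, ch_zero, ch_mul, ch_sq h2, ch_neg h3]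
    ring
  have hGG : G 2 = G (-2) := by
    rw [hG]
    simp only
    rw [(E4_pm hm (by omega) h3).1, (E4_pm hm (by omega) h3).2, hth]
  have hsum : ∀ n : ℕ, 0 < n → ∑ i : ZMod p, i ^ n * G i = 2 ^ n * G 2 + (-2) ^ n * G 2 := by
    intro n hn
    have h5 : ∀ i : ZMod p, i ^ n * G i = (if i = 2 then 2 ^ n * G 2 else 0) +
        (if i = -2 then (-2) ^ n * G 2 else 0) := by
      intro i
      by_cases hi2 : i = 2
      · rw [if_pos hi2, hi2, if_neg hpm, add_zero]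
      · rw [if_neg hi2, zero_add]
        by_cases hi2' : i = -2
        · rw [if_pos hi2', hi2', hGG]
        · rw [if_neg hi2']
          by_cases hi0 : i = 0
          · rw [hi0, zero_pow hn.ne', zero_mul]
          · rw [hG0 i hi0 hi2 hi2', mul_zero]
    rw [Finset.sum_congr rfl fun i _ => h5 i, Finset.sum_add_distrib, Finset.sum_ite_eq',
      Finset.sum_ite_eq', if_pos (Finset.mem_univ _), if_pos (Finset.mem_univ _)]
  have hsum2 : ∀ n : ℕ, n < m → ∑ i : ZMod p, i ^ n * G i =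
      4 * ∑ i : ZMod p, i ^ n * ((E4 2 i : ℤ) : ZMod p) -
        ((e₁ : ZMod p) - e₂) * (-((m.choose n : ℕ) * 2 ^ n) - ((m.choose n : ℕ) * (-2) ^ n)) := by
    intro n hn
    rw [← mom_th hm hm0 h3 hn, Finset.mul_sum, Finset.mul_sum, ← Finset.sum_sub_distrib]
    have h6 : ∑ i : ZMod p, (2 * ((e₁ : ZMod p) + e₂)) * i ^ n = 0 := by
      rw [← Finset.mul_sum, pw hm hm0 (by omega), if_neg (by omega), mul_zero]
    rw [← sub_zero (∑ i : ZMod p, (4 * (i ^ n * ((E4 2 i : ℤ) : ZMod p)) -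
      ((e₁ : ZMod p) - e₂) * (i ^ n * ((th 2 i : ℤ) : ZMod p)))), ← h6, ← Finset.sum_sub_distrib]
    refine Finset.sum_congr rfl fun i _ => ?_
    rw [hG]
    simp only
    ring
  obtain ⟨c1, c2, c3, c4, c6⟩ := choose_vals hm hm9
  have n0 : nu p m 0 = -1 := by
    have := nu_even hm hm0 (r := 0) hm0
    simpa using this
  have n1 : nu p m 1 = 0 := nu_odd hm hm0 (r := 0) (by omega)
  have n3 : nu p m 3 = 0 := nu_odd hm hm0 (r := 1) (by omega)
  have n5 : nu p m 5 = 0 := nu_odd hm hm0 (r := 2) (by omega)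
  have n2 : nu p m 2 = -1 / 2 := by
    have := nu_even hm hm0 (r := 1) (by omega)
    rw [c1] at this
    rw [show 2 = 2 * 1 by norm_num, this]; ring
  have n4 : nu p m 4 = -3 / 8 := by
    have := nu_even hm hm0 (r := 2) (by omega)
    rw [c2] at this
    rw [show 4 = 2 * 2 by norm_num, this]; ring
  have n6 : nu p m 6 = -5 / 16 := by
    have := nu_even hm hm0 (r := 3) (by omega)
    rw [c3] at this
    rw [show 6 = 2 * 3 by norm_num, this]; ring
  have q2 : 4 * 1 + 2 * ((e₁ : ZMod p) - e₂) * (3 / 8) * 4 = 8 * G 2 := by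
    have a1 := hsum 2 (by norm_num)
    rw [hsum2 2 (by omega), mom2 hm hm0, n0, n1, n2, c2] at a1
    have a2 : (1 : ZMod p) = 2 * (-1) * (-1 / 2) - 2 * 0 ^ 2 := by field_simp; norm_num
    rw [← a2] at a1
    linear_combination a1
  have q4 : 4 * (9 / 4) + 2 * ((e₁ : ZMod p) - e₂) * (35 / 128) * 16 = 32 * G 2 := by
    have a1 := hsum 4 (by norm_num)
    rw [hsum2 4 (by omega), mom4 hm hm0, n0, n1, n2, n3, n4, c4] at a1
    have a2 : (9 / 4 : ZMod p) = 2 * (-1) * (-3 / 8) - 8 * (0 * 0) + 6 * (-1 / 2) ^ 2 := by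
      field_simp; norm_num
    rw [← a2] at a1
    linear_combination a1
  have q6 : 4 * (25 / 4) + 2 * ((e₁ : ZMod p) - e₂) * (231 / 1024) * 64 = 128 * G 2 := by
    have a1 := hsum 6 (by norm_num)
    rw [hsum2 6 (by omega), mom6 hm hm0, n0, n1, n2, n3, n4, n5, n6, c6] at a1
    have a2 : (25 / 4 : ZMod p) = 2 * (-1) * (-5 / 16) - 12 * (0 * 0) + 30 * (-1 / 2 * (-3 / 8))
        - 20 * 0 ^ 2 := by
      field_simp; norm_num
    rw [← a2] at a1
    linear_combination a1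
  have r2 : 4 + 3 * ((e₁ : ZMod p) - e₂) = 8 * G 2 := by
    rw [← q2]; field_simp; ring
  have r4 : 36 + 35 * ((e₁ : ZMod p) - e₂) = 128 * G 2 := by
    have : 36 + 35 * ((e₁ : ZMod p) - e₂) =
      4 * (4 * (9 / 4) + 2 * ((e₁ : ZMod p) - e₂) * (35 / 128) * 16) := by
      field_simp; ring
    rw [this, q4]; ring
  have r6 : 200 + 231 * ((e₁ : ZMod p) - e₂) = 1024 * G 2 := by
    have : 200 + 231 * ((e₁ : ZMod p) - e₂) =
      8 * (4 * (25 / 4) + 2 * ((e₁ : ZMod p) - e₂) * (231 / 1024) * 64) := by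
      field_simp; ring
    rw [this, q6]; ring
  -- 13 D = - 28 and 153 D = - 312
  have s1 : 13 * ((e₁ : ZMod p) - e₂) = -28 := by linear_combination 16 * r2 - r4
  have s2 : 153 * ((e₁ : ZMod p) - e₂) = -312 := by linear_combination 128 * r2 - r6
  have s3 : ((228 : ℕ) : ZMod p) = 0 := by
    push_cast
    linear_combination 153 * s1 - 13 * s2
  have s4 : p ∣ 228 := (ZMod.natCast_eq_zero_iff 228 p).1 s3
  have hp : p.Prime := Fact.out
  have s5 : p ∣ 2 * 2 * 3 * 19 := by norm_num; exact s4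
  rcases (Nat.Prime.dvd_mul hp).1 s5 with s6 | s6
  · have := Nat.le_of_dvd (by norm_num) s6
    omega
  · exact (Nat.prime_dvd_prime_iff_eq hp (by norm_num)).1 s6

end Pool.Agent.K3h22.SL
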