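import Mathlib
import Pool.Agent.K3h22.SL.D
import Pool.Agent.R503.SIC.Cliff
import Pool.Agent.R503.SIC.Dil

set_option autoImplicit false

/-! # Fiducial vectors constant on quadratic residues -/

namespace Pool.Agent.K3h22.SL

open Finset Complex
open scoped ComplexConjugate
open Pool.Agent.R503.SIC

variable {p : ℕ} [Fact p.Prime]

/-- a fiducial vector in odd prime dimension at least five is not even -/
theorem not_even (hp5 : 5 ≤ p) {ψ : ZMod p → ℂ} (hψ : Fid ψ) (h : ∀ j, ψ (-j) = ψ j) :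
    False := by
  have hp : p.Prime := Fact.out
  have hs : Sym ψ (-1) 0 0 1 := by
    refine ⟨by ring, fun j => ?_⟩
    rw [zero_mul, e_zero, mul_one, one_mul, neg_one_mul, add_zero, h]
  have h1 : (-1 : ZMod p) ≠ 1 := by
    intro h'
    have h2 : ((2 : ℕ) : ZMod p) = 0 := by
      push_cast
      linear_combination -h'
    have := Nat.le_of_dvd (by norm_num) ((ZMod.natCast_eq_zero_iff 2 p).1 h2)
    omega
  obtain ⟨t, ht, -⟩ := dilation hψ hs h1
  rcases primePow ht hp.isPrimePow with h2 | h2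
  · omega
  · rw [h2] at hp; norm_num at hp

/-- structure of the vector -/
theorem shape (h3 : p % 4 = 3) {ψ : ZMod p → ℂ} (h : ∀ g j : ZMod p, g ≠ 0 → ψ (g ^ 2 * j) = ψ j)
    (j : ZMod p) : ψ j = (ψ 1 + ψ (-1)) / 2 + (ψ 1 - ψ (-1)) / 2 * ch j +
      (ψ 0 - (ψ 1 + ψ (-1)) / 2) * dl j := by
  unfold dl
  by_cases hj : j = 0
  · rw [if_pos hj, hj, ch_zero]; push_cast; ring
  · rw [if_neg hj]
    have hsq : ∀ x : ZMod p, x ≠ 0 → ch x = 1 → ∃ g : ZMod p, g ≠ 0 ∧ x = g ^ 2 := by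
      intro x hx hx1
      unfold ch at hx1
      obtain ⟨g, hg⟩ := (quadraticChar_one_iff_isSquare hx).1 hx1
      refine ⟨g, ?_, by rw [hg, pow_two]⟩
      rintro rfl
      exact hx (by rw [hg, mul_zero])
    have hc : ch j = 1 ∨ ch j = -1 := by
      have := ch_sq hj
      exact mul_self_eq_one_iff.1 this
    rcases hc with hc | hc
    · obtain ⟨g, hg0, hg⟩ := hsq j hj hc
      have : ψ j = ψ 1 := by
        rw [hg, ← h g 1 hg0, mul_one]
      rw [hc, this]; push_cast; ring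
    · have hc' : ch (-j) = 1 := by rw [ch_neg h3, hc]; norm_num
      obtain ⟨g, hg0, hg⟩ := hsq (-j) (neg_ne_zero.2 hj) hc'
      have : ψ j = ψ (-1) := by
        rw [← h g (-1) hg0, ← hg]; congr 1; ring
      rw [hc, this]; push_cast; ring

theorem conj_dl (j : ZMod p) : conj (dl j) = dl j := by
  unfold dl; split_ifs <;> simp

/-- the quartic equation -/
theorem quartic (h3 : p % 4 = 3) {ψ : ZMod p → ℂ} (hψ : Fid ψ) {u v w : ℂ}
    (h : ∀ j, ψ j = u + v * ch j + w * dl j) {a k : ZMod p} (ha : a ≠ 0) (hk : k ≠ 0)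
    (hak : a ≠ k) (hs : a + k ≠ 0) :
    p * (u * conj u) ^ 2 - 4 * (u * conj u) * (v * conj v) -
      (v ^ 2 * conj u ^ 2 + conj v ^ 2 * u ^ 2) + (v * conj v) ^ 2 * E4 a k +
      2 * w * (u * conj u * conj u + u * conj v ^ 2 * (ch a * ch k) +
        conj u * (v * conj v) * ((ch a + ch k) * ch (a + k))) +
      2 * conj w * (u * conj u * u - conj u * v ^ 2 * (ch a * ch k) +
        u * (v * conj v) * ((ch a - ch k) * ch (a - k))) = 0 := by
  rw [← sumT h3 u v w (conj u) (conj v) (conj w) ha hk hak hs]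
  have h1 := TT_eq hψ a k
  rw [if_neg ha, if_neg hk, zero_add, zero_div] at h1
  rw [← h1]
  unfold TT
  refine Finset.sum_congr rfl fun j _ => ?_
  rw [h, h, h, h]
  simp only [map_add, map_mul, conj_dl, map_intCast]

theorem realEq (h3 : p % 4 = 3) {ψ : ZMod p → ℂ} (hψ : Fid ψ) {u v w : ℂ}
    (h : ∀ j, ψ j = u + v * ch j + w * dl j) {a k : ZMod p} (ha : a ≠ 0) (hk : k ≠ 0)
    (hak : a ≠ k) (hs : a + k ≠ 0) :
    p * normSq u ^ 2 - 4 * normSq u * normSq v - 2 * ((u * conj v) ^ 2).re +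
      4 * normSq u * (w * conj u).re + normSq v ^ 2 * E4 a k +
      2 * normSq v * (w * conj u).re * th a k = 0 := by
  have h1 := congrArg Complex.re (quartic h3 hψ h ha hk hak hs)
  unfold th
  simp only [pow_two, Complex.add_re, Complex.sub_re, Complex.mul_re, Complex.mul_im,
    Complex.add_im, Complex.sub_im, Complex.conj_re, Complex.conj_im, Complex.natCast_re,
    Complex.natCast_im, Complex.intCast_re, Complex.intCast_im, Complex.re_ofNat, Complex.im_ofNat,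
    Complex.normSq_apply, Complex.zero_re] at h1 ⊢
  push_cast
  linear_combination h1

theorem imagEq (h3 : p % 4 = 3) {ψ : ZMod p → ℂ} (hψ : Fid ψ) {u v w : ℂ}
    (h : ∀ j, ψ j = u + v * ch j + w * dl j) {a k : ZMod p} (ha : a ≠ 0) (hk : k ≠ 0)
    (hak : a ≠ k) (hs : a + k ≠ 0) :
    4 * (ch a * ch k) * (w * u * conj v ^ 2).im + 2 * normSq v * (w * conj u).im *
      ((ch a + ch k) * ch (a + k) - (ch a - ch k) * ch (a - k)) = 0 := by
  have h1 := congrArg Complex.im (quartic h3 hψ h ha hk hak hs)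
  simp only [pow_two, Complex.add_re, Complex.sub_re, Complex.mul_re, Complex.mul_im,
    Complex.add_im, Complex.sub_im, Complex.conj_re, Complex.conj_im, Complex.natCast_re,
    Complex.natCast_im, Complex.intCast_re, Complex.intCast_im, Complex.re_ofNat, Complex.im_ofNat,
    Complex.normSq_apply, Complex.zero_im] at h1 ⊢
  linear_combination h1

theorem ch_pm {x : ZMod p} (hx : x ≠ 0) : ch x = 1 ∨ ch x = -1 :=
  mul_self_eq_one_iff.1 (ch_sq hx)

theorem th_pm {a k : ZMod p} (ha : a ≠ 0) (hk : k ≠ 0) (hak : a ≠ k) (hs : a + k ≠ 0) :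
    th a k = 2 ∨ th a k = -2 := by
  unfold th
  rcases ch_pm ha with h1 | h1 <;> rcases ch_pm hk with h2 | h2 <;> rcases ch_pm hs with h3 | h3 <;>
    rcases ch_pm (sub_ne_zero.2 hak) with h4 | h4 <;> rw [h1, h2, h3, h4] <;> norm_num

theorem two_valued (h3 : p % 4 = 3) {ψ : ZMod p → ℂ} (hψ : Fid ψ) {u v w : ℂ}
    (h : ∀ j, ψ j = u + v * ch j + w * dl j) (hv : v ≠ 0) :
    ∃ e₁ e₂ : ℤ, ∀ a k : ZMod p, a ≠ 0 → k ≠ 0 → a ≠ k → a + k ≠ 0 →
      4 * E4 a k = 2 * (e₁ + e₂) + (e₁ - e₂) * th a k := by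
  have hQ : normSq v ≠ 0 := by rwa [Ne, Complex.normSq_eq_zero]
  have key : ∀ a k a' k' : ZMod p, a ≠ 0 → k ≠ 0 → a ≠ k → a + k ≠ 0 → a' ≠ 0 → k' ≠ 0 → a' ≠ k' →
      a' + k' ≠ 0 → th a k = th a' k' → E4 a k = E4 a' k' := by
    intro a k a' k' ha hk hak hs ha' hk' hak' hs' hth
    have e1 := realEq h3 hψ h ha hk hak hs
    have e2 := realEq h3 hψ h ha' hk' hak' hs'
    rw [hth] at e1
    have e3 : normSq v ^ 2 * ((E4 a k : ℤ) : ℝ) = normSq v ^ 2 * ((E4 a' k' : ℤ) : ℝ) := by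
      linear_combination e1 - e2
    have e4 := mul_left_cancel₀ (pow_ne_zero 2 hQ) e3
    exact_mod_cast e4
  have hex : ∀ s : ℤ, ∃ e : ℤ, ∀ a k : ZMod p, a ≠ 0 → k ≠ 0 → a ≠ k → a + k ≠ 0 →
      th a k = s → E4 a k = e := by
    intro s
    by_cases hs : ∃ a k : ZMod p, a ≠ 0 ∧ k ≠ 0 ∧ a ≠ k ∧ a + k ≠ 0 ∧ th a k = s
    · obtain ⟨a', k', h1, h2, h3', h4, h5⟩ := hs
      exact ⟨E4 a' k', fun a k ha hk hak hs' hth =>
        key a k a' k' ha hk hak hs' h1 h2 h3' h4 (hth.trans h5.symm)⟩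
    · exact ⟨0, fun a k ha hk hak hs' hth => absurd ⟨a, k, ha, hk, hak, hs', hth⟩ hs⟩
  obtain ⟨e₁, he₁⟩ := hex 2
  obtain ⟨e₂, he₂⟩ := hex (-2)
  refine ⟨e₁, e₂, fun a k ha hk hak hs => ?_⟩
  rcases th_pm ha hk hak hs with ht | ht
  · rw [ht, he₁ a k ha hk hak hs ht]; ring
  · rw [ht, he₂ a k ha hk hak hs ht]; ring

theorem large (h3 : p % 4 = 3) (hp19 : 19 ≤ p) {ψ : ZMod p → ℂ} (hψ : Fid ψ)
    (h : ∀ g j : ZMod p, g ≠ 0 → ψ (g ^ 2 * j) = ψ j) : p = 19 := by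
  have hs := shape h3 h
  obtain ⟨m, hm⟩ : ∃ m, p = 2 * m + 1 := ⟨p / 2, by omega⟩
  have hv : (ψ 1 - ψ (-1)) / 2 ≠ 0 := by
    intro hv
    rw [hv] at hs
    refine not_even (by omega) hψ fun j => ?_
    rw [hs (-j), hs j]
    have : dl (-j) = dl j := by unfold dl; simp only [neg_eq_zero]
    rw [this]; ring
  obtain ⟨e₁, e₂, he⟩ := two_valued h3 hψ hs hv
  have h2 : (2 : ZMod p) ≠ 0 := by
    exact_mod_cast nz hm (by omega) (q := 2) (by norm_num) (by norm_num)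
  refine modp hm (by omega) h3 e₁ e₂ fun i hi0 hi2 hi2' => he 2 i h2 hi0 (Ne.symm hi2) ?_
  intro h'
  exact hi2' (by linear_combination h')

end Pool.Agent.K3h22.SL
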