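import Mathlib
import Pool.Agent.K3h22.SL.F

set_option autoImplicit false

/-! # Fiducial vectors constant on quadratic residues: `p = 11` -/

namespace Pool.Agent.K3h22.SL

open Finset Complex
open scoped ComplexConjugate
open Pool.Agent.R503.SIC

theorem fact11 : Fact (Nat.Prime 11) := ⟨by norm_num⟩

set_option maxRecDepth 100000 in
theorem vals0 : @ch 11 fact11 1 = 1 ∧ @ch 11 fact11 3 = 1 ∧
    @ch 11 fact11 4 = 1 ∧ @ch 11 fact11 5 = 1 ∧ @ch 11 fact11 6 = -1 ∧
    @E4 11 fact11 1 3 = 3 ∧ @E4 11 fact11 1 5 = -5 := by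
  unfold E4 ch
  refine ⟨?_, ?_, ?_, ?_, ?_, ?_, ?_⟩ <;> decide

theorem vals [Fact (Nat.Prime 11)] : ch (1 : ZMod 11) = 1 ∧ ch (3 : ZMod 11) = 1 ∧
    ch (4 : ZMod 11) = 1 ∧ ch (5 : ZMod 11) = 1 ∧ ch (6 : ZMod 11) = -1 ∧
    E4 (1 : ZMod 11) 3 = 3 ∧ E4 (1 : ZMod 11) 5 = -5 := vals0

theorem facts : (1 : ZMod 11) ≠ 0 ∧ (3 : ZMod 11) ≠ 0 ∧ (5 : ZMod 11) ≠ 0 ∧ (1 : ZMod 11) ≠ 3 ∧
    (1 : ZMod 11) ≠ 5 ∧ (1 : ZMod 11) + 3 ≠ 0 ∧ (1 : ZMod 11) + 5 ≠ 0 ∧ (1 : ZMod 11) + 3 = 4 ∧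
    (1 : ZMod 11) + 5 = 6 := by decide

variable {p : ℕ} [Fact p.Prime]

/-- real delta function -/
noncomputable def dr (j : ZMod p) : ℝ := if j = 0 then 1 else 0

theorem dl_eq (j : ZMod p) : dl j = (dr j : ℂ) := by
  unfold dl dr; split_ifs <;> simp

theorem modulus {ψ : ZMod p → ℂ} {u v w : ℂ}
    (h : ∀ j, ψ j = u + v * ch j + w * dl j) (j : ZMod p) :
    normSq (ψ j) = (normSq u + normSq v) + 2 * (u * conj v).re * ch j +
      (normSq (u + w) - (normSq u + normSq v)) * dr j := by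
  rw [h j, dl_eq]
  unfold dr
  by_cases hj : j = 0
  · rw [if_pos hj, hj, ch_zero]
    simp only [Int.cast_zero, mul_zero, add_zero, Complex.ofReal_one, mul_one]
    ring
  · rw [if_neg hj]
    rcases ch_pm hj with hc | hc <;> rw [hc] <;>
    simp only [Complex.normSq_apply, Complex.add_re, Complex.add_im, Complex.mul_re, Complex.mul_im,
      Complex.conj_re, Complex.conj_im, Int.cast_one, Int.cast_neg, Complex.one_re, Complex.one_im,
      Complex.neg_re, Complex.neg_im, Complex.ofReal_zero, Complex.zero_re, Complex.zero_im] <;>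
    ring

theorem sum_dr (c : ZMod p) (H : ZMod p → ℝ) : ∑ j, dr (j + c) * H j = H (-c) := by
  have h1 : ∀ j : ZMod p, dr (j + c) * H j = if j = -c then H j else 0 := by
    intro j
    unfold dr
    by_cases hj : j = -c
    · rw [if_pos hj, if_pos (by rw [hj]; ring), one_mul]
    · rw [if_neg hj, if_neg (fun h => hj (by linear_combination h)), zero_mul]
  rw [Finset.sum_congr rfl fun j _ => h1 j, Finset.sum_ite_eq', if_pos (Finset.mem_univ _)]

theorem normEq (hp : p ≠ 2) {ψ : ZMod p → ℂ} (hψ : Fid ψ) {u v w : ℂ}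
    (h : ∀ j, ψ j = u + v * ch j + w * dl j) :
    p * (normSq u + normSq v) + (normSq (u + w) - (normSq u + normSq v)) = 1 := by
  have h1 := hψ.1
  obtain ⟨α, hα⟩ : ∃ α, α = normSq u + normSq v := ⟨_, rfl⟩
  simp only [← Complex.normSq_eq_norm_sq, modulus h, ← hα, Finset.sum_add_distrib, ← Finset.mul_sum] at h1
  rw [← hα]
  have h2 : ∑ j : ZMod p, ((ch j : ℤ) : ℝ) = 0 := by exact_mod_cast s0 hp
  have h3 : ∑ j : ZMod p, dr j = 1 := by
    have := sum_dr (p := p) 0 fun _ => 1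
    simpa using this
  rw [h2, h3, Finset.sum_const, Finset.card_univ, ZMod.card, nsmul_eq_mul] at h1
  linear_combination h1

theorem modEq (h3 : p % 4 = 3) {ψ : ZMod p → ℂ} (hψ : Fid ψ) {u v w : ℂ}
    (h : ∀ j, ψ j = u + v * ch j + w * dl j) :
    p * (normSq u + normSq v) ^ 2 + 2 * (normSq u + normSq v) *
      (normSq (u + w) - (normSq u + normSq v)) - 4 * (u * conj v).re ^ 2 = 1 / ((p : ℝ) + 1) := by
  have hp : p ≠ 2 := by intro h; rw [h] at h3; norm_num at h3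
  have hpr : p.Prime := Fact.out
  have h1 := TT_eq hψ 0 1
  have h10 : (1 : ZMod p) ≠ 0 := one_ne_zero
  rw [if_pos rfl, if_neg h10, add_zero] at h1
  have h2 : TT ψ 0 1 = ((∑ j, normSq (ψ j) * normSq (ψ (j + 1)) : ℝ) : ℂ) := by
    unfold TT
    push_cast
    refine Finset.sum_congr rfl fun j _ => ?_
    rw [add_zero, ← Complex.mul_conj, ← Complex.mul_conj]
    ring
  rw [h2] at h1
  have h4 : ∑ j, normSq (ψ j) * normSq (ψ (j + 1)) = 1 / ((p : ℝ) + 1) := by
    apply Complex.ofReal_injective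
    rw [h1]; push_cast; ring
  rw [← h4]
  obtain ⟨α, hα⟩ : ∃ α, α = normSq u + normSq v := ⟨_, rfl⟩
  obtain ⟨β, hβ⟩ : ∃ β, β = (u * conj v).re := ⟨_, rfl⟩
  obtain ⟨γ, hγ⟩ : ∃ γ, γ = normSq (u + w) - (normSq u + normSq v) := ⟨_, rfl⟩
  have h5 : ∀ j : ZMod p, normSq (ψ j) * normSq (ψ (j + 1)) =
      α ^ 2 + 2 * α * β * ch j + 2 * α * β * ch (j + 1) + 4 * β ^ 2 * (ch j * ch (j + 1)) +
      dr (j + 0) * (γ * (α + 2 * β * ch (j + 1) + γ * dr (j + 1))) +
      dr (j + 1) * (γ * (α + 2 * β * ch j)) := by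
    intro j
    rw [modulus h, modulus h, ← hγ, ← hα, ← hβ, add_zero]
    ring
  rw [← hγ, ← hα, ← hβ, Finset.sum_congr rfl fun j _ => h5 j]
  simp only [Finset.sum_add_distrib, ← Finset.mul_sum]
  have c0 : ∑ j : ZMod p, ((ch j : ℤ) : ℝ) = 0 := by exact_mod_cast s0 hp
  have c1 : ∑ j : ZMod p, ((ch (j + 1) : ℤ) : ℝ) = 0 := by exact_mod_cast s1 hp 1
  have c2 : ∑ j : ZMod p, (((ch j : ℤ) : ℝ) * ((ch (j + 1) : ℤ) : ℝ)) = -1 := by
    exact_mod_cast s2' hp h10
  have t0 := sum_dr (p := p) 0 fun j => γ * (α + 2 * β * ch (j + 1) + γ * dr (j + 1))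
  have t1 := sum_dr (p := p) 1 fun j => γ * (α + 2 * β * ch j)
  rw [t0, t1, c0, c1, c2, Finset.sum_const, Finset.card_univ, ZMod.card, nsmul_eq_mul, neg_zero,
    zero_add, ch_neg h3, ch_one]
  have d1 : dr (1 : ZMod p) = 0 := by unfold dr; rw [if_neg h10]
  rw [d1]
  push_cast
  ring

theorem not_eleven [Fact (Nat.Prime 11)] {ψ : ZMod 11 → ℂ} (hψ : Fid ψ)
    (h : ∀ g j : ZMod 11, g ≠ 0 → ψ (g ^ 2 * j) = ψ j) : False := by
  have h3 : 11 % 4 = 3 := by norm_num
  have hs := shape h3 h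
  obtain ⟨u, hu⟩ : ∃ u, u = (ψ 1 + ψ (-1)) / 2 := ⟨_, rfl⟩
  obtain ⟨v, hv⟩ : ∃ v, v = (ψ 1 - ψ (-1)) / 2 := ⟨_, rfl⟩
  obtain ⟨w, hw⟩ : ∃ w, w = ψ 0 - u := ⟨_, rfl⟩
  rw [← hu, ← hv, ← hw] at hs
  have hv0 : v ≠ 0 := by
    intro hv0
    rw [hv0] at hs
    refine not_even (by norm_num) hψ fun j => ?_
    rw [hs (-j), hs j]
    have : dl (-j) = dl j := by unfold dl; simp only [neg_eq_zero]
    rw [this]; ring
  have hQ : 0 < normSq v := Complex.normSq_pos.2 hv0
  obtain ⟨v1, v3, v4, v5, v6, e3, e5⟩ := vals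
  obtain ⟨n1, n3, n5, n13, n15, s13, s15, a4, a6⟩ := facts
  have R3 := realEq h3 hψ hs n1 n3 n13 s13
  have R5 := realEq h3 hψ hs n1 n5 n15 s15
  have I3 := imagEq h3 hψ hs n1 n3 n13 s13
  have I5 := imagEq h3 hψ hs n1 n5 n15 s15
  have N := normEq (by norm_num) hψ hs
  have M := modEq h3 hψ hs
  unfold th at R3 R5
  rw [a4, v1, v3, v4, e3] at R3
  rw [a6, v1, v5, v6, e5] at R5
  rw [a4, v1, v3, v4] at I3
  rw [a6, v1, v5, v6] at I5
  push_cast at R3 R5 I3 I5 N M
  obtain ⟨P, hP⟩ : ∃ P, P = normSq u := ⟨_, rfl⟩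
  obtain ⟨Q, hQ'⟩ : ∃ Q, Q = normSq v := ⟨_, rfl⟩
  obtain ⟨t, ht⟩ : ∃ t, t = u * conj v := ⟨_, rfl⟩
  obtain ⟨z, hz⟩ : ∃ z, z = w * conj u := ⟨_, rfl⟩
  rw [← hP, ← hQ', ← ht, ← hz] at R3 R5
  rw [← hQ', ← hz] at I3 I5
  rw [← hP, ← hQ'] at N
  rw [← hP, ← hQ', ← ht] at M
  rw [← hQ'] at hQ
  have hzre : z.re = -Q := by
    have : Q * (z.re + Q) = 0 := by linear_combination (R3 - R5) / 8
    rcases mul_eq_zero.1 this with h' | h'
    · exact absurd h' hQ.ne'
    · linear_combination h'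
  have hzim : z.im = 0 := by
    have : Q * z.im = 0 := by linear_combination (I3 - I5) / 8
    rcases mul_eq_zero.1 this with h' | h'
    · exact absurd h' hQ.ne'
    · exact h'
  have hyim : (w * u * conj v ^ 2).im = 0 := by linear_combination (I3 + I5) / 8
  have hz' : z = ((-Q : ℝ) : ℂ) := Complex.ext (by rw [hzre]; simp) (by rw [hzim]; simp)
  have huu : u * conj u = (P : ℂ) := by rw [hP]; exact Complex.mul_conj u
  have hPw : (P : ℂ) * w = -(Q : ℂ) * u := by
    have : (P : ℂ) * w = z * u := by rw [hz, ← huu]; ring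
    rw [this, hz']; push_cast; ring
  have hP0 : 0 < P := by
    rw [hP]
    apply Complex.normSq_pos.2
    intro hu0
    rw [hz, hu0, map_zero, mul_zero] at hz'
    have := congrArg Complex.re hz'
    simp at this
    exact hQ.ne' this
  have ht2 : (t ^ 2).im = 0 := by
    have e1 : ((P : ℂ) * (w * u * conj v ^ 2)) = ((-Q : ℝ) : ℂ) * t ^ 2 := by
      have : (P : ℂ) * (w * u * conj v ^ 2) = ((P : ℂ) * w) * u * conj v ^ 2 := by ring
      rw [this, hPw, ht]; push_cast; ring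
    have e2 := congrArg Complex.im e1
    rw [Complex.im_ofReal_mul, Complex.im_ofReal_mul, hyim, mul_zero] at e2
    have e3 : Q * (t ^ 2).im = 0 := by linear_combination e2
    rcases mul_eq_zero.1 e3 with h' | h'
    · exact absurd h' hQ.ne'
    · exact h'
  have hsum : P * normSq (u + w) = (P - Q) ^ 2 := by
    have e1 : (P : ℂ) * (u + w) = ((P - Q : ℝ) : ℂ) * u := by
      rw [mul_add, hPw]; push_cast; ring
    have e2 := congrArg Complex.normSq e1
    rw [Complex.normSq_mul, Complex.normSq_mul, Complex.normSq_ofReal, Complex.normSq_ofReal,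
      ← hP] at e2
    apply mul_left_cancel₀ hP0.ne'
    linear_combination e2
  have htn : t.re ^ 2 + t.im ^ 2 = P * Q := by
    have : normSq t = P * Q := by rw [ht, Complex.normSq_mul, Complex.normSq_conj, hP, hQ']
    rw [← this, Complex.normSq_apply]; ring
  have htt : t.re * t.im = 0 := by
    have : (t ^ 2).im = 2 * (t.re * t.im) := by rw [pow_two, Complex.mul_im]; ring
    rw [this] at ht2; linear_combination ht2 / 2
  have htre : (t ^ 2).re = t.re ^ 2 - t.im ^ 2 := by rw [pow_two, Complex.mul_re]; ring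
  rw [hzre, htre] at R3
  obtain ⟨γ, hγ⟩ : ∃ γ, γ = normSq (u + w) - (P + Q) := ⟨_, rfl⟩
  rw [← hγ] at N M
  have hγP : P * γ = Q ^ 2 - 3 * P * Q := by rw [hγ]; linear_combination hsum
  have M' : 44 * t.re ^ 2 + γ ^ 2 = 1 / 12 := by
    norm_num at M
    linear_combination (11 * (P + Q) + γ + 1) * N - 11 * M
  rcases mul_eq_zero.1 htt with h0 | h0
  · rw [h0] at htn R3 M'
    have k1 : Q ^ 2 = 11 * P ^ 2 - 6 * P * Q := by linear_combination -R3 + 2 * htn
    have k2 : γ = 11 * P - 9 * Q := by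
      apply mul_left_cancel₀ hP0.ne'
      rw [hγP, k1]; ring
    rw [k2] at N M'
    have k3 : Q = 1 / 2 - 11 * P := by linear_combination N / 2
    rw [k3] at M' k1
    have k4 : P = 53 / 1320 := by linear_combination (M' - 275 * k1) / 1210
    rw [k4] at k1
    norm_num at k1
  · rw [h0] at htn R3
    have k1 : (P - Q) * (11 * P + Q) = 0 := by linear_combination R3 + 2 * htn
    have k2 : P = Q := by
      rcases mul_eq_zero.1 k1 with h' | h'
      · linear_combination h'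
      · have : 0 < 11 * P + Q := by positivity
        exact absurd h' this.ne'
    rw [← k2] at hγP htn N
    have k3 : γ = -2 * P := by
      apply mul_left_cancel₀ hP0.ne'
      rw [hγP]; ring
    rw [k3] at N M'
    have k4 : P = 1 / 20 := by linear_combination N / 20
    have k5 : t.re ^ 2 = P * P := by linear_combination htn
    rw [k5, k4] at M'
    norm_num at M'

/-- **Fiducial vectors constant on quadratic residues.** -/
theorem main {ψ : ZMod p → ℂ} (hψ : Fid ψ)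
    (h : ∀ g j : ZMod p, g ≠ 0 → ψ (g ^ 2 * j) = ψ j) : p = 2 ∨ p = 3 ∨ p = 7 ∨ p = 19 := by
  have hp : p.Prime := Fact.out
  by_cases hp5 : p < 5
  · interval_cases p
    · norm_num at hp
    · norm_num at hp
    · norm_num
    · norm_num
    · norm_num at hp
  push Not at hp5
  have hodd : p % 2 = 1 := (hp.eq_two_or_odd).resolve_left (by omega)
  have h4 : p % 4 = 1 ∨ p % 4 = 3 := by omega
  rcases h4 with h4 | h4
  · exfalso
    have h1 : IsSquare (-1 : ZMod p) := by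
      rw [ZMod.exists_sq_eq_neg_one_iff]; omega
    obtain ⟨g, hg⟩ := h1
    have hg0 : g ≠ 0 := by
      rintro rfl
      rw [mul_zero] at hg
      exact one_ne_zero (neg_eq_zero.1 hg)
    refine not_even hp5 hψ fun j => ?_
    rw [← h g j hg0, pow_two, ← hg, neg_one_mul]
  · by_cases hp19 : 19 ≤ p
    · right; right; right
      exact large h4 hp19 hψ h
    · push Not at hp19
      interval_cases p <;> first | omega | (exfalso; exact not_eleven hψ h) | (norm_num at hp)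

end Pool.Agent.K3h22.SL

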