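import Mathlib
import Pool.Agent.K3h22.SL.C

set_option autoImplicit false

/-! # Sums of polynomials over the prime field -/

namespace Pool.Agent.K3h22.SL

open Finset Polynomial

variable {p : ℕ} [Fact p.Prime] {m : ℕ}

theorem psum (hm : p = 2 * m + 1) (hm0 : 0 < m) (f : (ZMod p)[X]) (hf : f.natDegree < 4 * m) :
    ∑ x : ZMod p, f.eval x = - f.coeff (2 * m) := by
  have h1 : ∀ x : ZMod p, f.eval x = ∑ i ∈ range (4 * m), f.coeff i * x ^ i := fun x =>
    Polynomial.eval_eq_sum_range' hf x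
  rw [Finset.sum_congr rfl fun x _ => h1 x, Finset.sum_comm]
  have h2 : ∀ i ∈ range (4 * m), ∑ x : ZMod p, f.coeff i * x ^ i =
      if i = 2 * m then - f.coeff i else 0 := by
    intro i hi
    rw [← Finset.mul_sum, pw hm hm0 (mem_range.1 hi)]
    split_ifs <;> ring
  rw [Finset.sum_congr rfl h2, Finset.sum_ite_eq', if_pos (mem_range.2 (by omega))]

theorem qsum (hm : p = 2 * m + 1) (hm0 : 0 < m) {A B : ℕ} (hA : A ≤ 2 * m) (hAB : A + B < 4 * m) :
    ∑ x : ZMod p, x ^ A * (x + 1) ^ B = -((B.choose (2 * m - A) : ℕ) : ZMod p) := by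
  have h1 : ∀ x : ZMod p, x ^ A * (x + 1) ^ B = (X ^ A * (X + 1) ^ B : (ZMod p)[X]).eval x := by
    intro x; simp
  rw [Finset.sum_congr rfl fun x _ => h1 x, psum hm hm0]
  · rw [Polynomial.coeff_X_pow_mul', if_pos hA, Polynomial.coeff_X_add_one_pow]
  · refine lt_of_le_of_lt Polynomial.natDegree_mul_le ?_
    rw [Polynomial.natDegree_X_pow]
    refine lt_of_le_of_lt (add_le_add_right Polynomial.natDegree_pow_le _) ?_
    have : (X + 1 : (ZMod p)[X]).natDegree ≤ 1 := by
      have := Polynomial.natDegree_X_add_C (1 : ZMod p)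
      rw [map_one] at this
      exact this.le
    nlinarith

theorem dsum (hm : p = 2 * m + 1) (hm0 : 0 < m) {C D : ℕ} (hCD : C + D ≤ 2 * m) (j : ZMod p) :
    ∑ x : ZMod p, x ^ (2 * m - 1) * ((j + x) ^ C * (j + 1 + x) ^ D) =
      -((C : ZMod p) * j ^ (C - 1) * (j + 1) ^ D + (D : ZMod p) * j ^ C * (j + 1) ^ (D - 1)) := by
  obtain ⟨f, hf⟩ : ∃ f : (ZMod p)[X], f = (X + Polynomial.C j) ^ C * (X + Polynomial.C (j + 1)) ^ D :=
    ⟨_, rfl⟩
  have h1 : ∀ x : ZMod p, x ^ (2 * m - 1) * ((j + x) ^ C * (j + 1 + x) ^ D) =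
      (X ^ (2 * m - 1) * f).eval x := by
    intro x
    rw [hf]
    simp only [eval_mul, eval_pow, eval_X, eval_add, eval_C]
    rw [add_comm j x, add_comm (j + 1) x]
  have hdeg : f.natDegree ≤ C + D := by
    rw [hf]
    refine le_trans Polynomial.natDegree_mul_le (add_le_add ?_ ?_) <;>
    · refine le_trans Polynomial.natDegree_pow_le ?_
      rw [Polynomial.natDegree_X_add_C, mul_one]
  rw [Finset.sum_congr rfl fun x _ => h1 x, psum hm hm0]
  · rw [Polynomial.coeff_X_pow_mul', if_pos (by omega), show 2 * m - (2 * m - 1) = 1 by omega]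
    congr 1
    have h2 : f.coeff 1 = f.derivative.eval 0 := by
      rw [← Polynomial.coeff_zero_eq_eval_zero, Polynomial.coeff_derivative]
      simp
    rw [h2, hf]
    simp only [derivative_mul, derivative_pow, derivative_add, derivative_X, derivative_C, add_zero,
      mul_one, eval_add, eval_mul, eval_pow, eval_X, eval_C, zero_add, eval_natCast,
      Polynomial.eval_natCast, map_natCast]
    ring
  · refine lt_of_le_of_lt Polynomial.natDegree_mul_le ?_
    rw [Polynomial.natDegree_X_pow]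
    omega

/-- reduction of exponents -/
theorem red (hm : p = 2 * m + 1) {n : ℕ} (hn : 0 < n) (y : ZMod p) :
    y ^ (2 * m + n) = y ^ n := by
  by_cases hy : y = 0
  · rw [hy, zero_pow (by omega), zero_pow (by omega)]
  · have := ZMod.pow_card_sub_one_eq_one hy
    rw [show p - 1 = 2 * m by omega] at this
    rw [pow_add, this, one_mul]

/-- double sum -/
noncomputable def DS (p : ℕ) [Fact p.Prime] (m A B C D : ℕ) : ZMod p :=
  ∑ x : ZMod p, x ^ (2 * m - 1) * ∑ j : ZMod p, j ^ A * (j + 1) ^ B * (j + x) ^ C * (j + 1 + x) ^ D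

theorem DS_eq (hm : p = 2 * m + 1) (hm0 : 0 < m) {A B C D : ℕ} (hCD : C + D ≤ 2 * m) (hC : 0 < C)
    (hD : 0 < D) : DS p m A B C D =
      -((C : ZMod p) * ∑ j : ZMod p, j ^ (A + C - 1) * (j + 1) ^ (B + D) +
        (D : ZMod p) * ∑ j : ZMod p, j ^ (A + C) * (j + 1) ^ (B + D - 1)) := by
  unfold DS
  simp only [Finset.mul_sum]
  rw [Finset.sum_comm]
  have h1 : ∀ j : ZMod p, ∑ x : ZMod p, x ^ (2 * m - 1) *
      (j ^ A * (j + 1) ^ B * (j + x) ^ C * (j + 1 + x) ^ D) =
      j ^ A * (j + 1) ^ B * ∑ x : ZMod p, x ^ (2 * m - 1) * ((j + x) ^ C * (j + 1 + x) ^ D) := by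
    intro j
    rw [Finset.mul_sum]
    refine Finset.sum_congr rfl fun x _ => ?_
    ring
  rw [Finset.sum_congr rfl fun j _ => h1 j]
  simp only [dsum hm hm0 hCD]
  rw [← Finset.sum_add_distrib, ← Finset.sum_neg_distrib]
  refine Finset.sum_congr rfl fun j _ => ?_
  rw [show A + C - 1 = A + (C - 1) by omega, show B + D - 1 = B + (D - 1) by omega]
  rw [pow_add, pow_add, pow_add, pow_add]
  ring

theorem DS_symm {A B C D : ℕ} (hodd : Odd (A + B + C + D)) :
    DS p m A B C D + DS p m D C B A = 0 := by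
  unfold DS
  rw [← Finset.sum_add_distrib]
  refine Finset.sum_eq_zero fun x _ => ?_
  rw [← mul_add]
  have h1 : ∑ j : ZMod p, j ^ A * (j + 1) ^ B * (j + x) ^ C * (j + 1 + x) ^ D =
      -∑ j : ZMod p, j ^ D * (j + 1) ^ C * (j + x) ^ B * (j + 1 + x) ^ A := by
    rw [← Finset.sum_neg_distrib]
    refine Fintype.sum_equiv (Equiv.subLeft (-(1 + x))) _ _ fun j => ?_
    simp only [Equiv.subLeft_apply]
    have e1 : -(1 + x) - j = -(j + 1 + x) := by ring
    have e2 : -(1 + x) - j + 1 = -(j + x) := by ring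
    have e3 : -(1 + x) - j + x = -(j + 1) := by ring
    have e4 : -(1 + x) - j + 1 + x = -j := by ring
    rw [e4, e2, e3, e1, neg_pow (j + 1 + x) D, neg_pow (j + x) C, neg_pow (j + 1) B, neg_pow j A]
    have h2 : (-1 : ZMod p) ^ (A + B + C + D) = -1 := hodd.neg_one_pow
    have h3 : (-1 : ZMod p) ^ D * (-1) ^ C * (-1) ^ B * (-1) ^ A = -1 := by
      rw [← pow_add, ← pow_add, ← pow_add, ← h2]
      congr 1
      omega
    linear_combination ((j + 1 + x) ^ D * (j + x) ^ C * (j + 1) ^ B * j ^ A) * h3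
  rw [h1]; ring

end Pool.Agent.K3h22.SL
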