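import Mathlib

set_option autoImplicit false

/-! # Reduction of complex numbers modulo a place above `p` -/

namespace Pool.Agent.K3h22.SL

open Finset

variable {V : ValuationSubring ℂ}

/-- `x` is integral at the place and reduces to `y` -/
def Res (V : ValuationSubring ℂ) (x : ℂ) (y : IsLocalRing.ResidueField V) : Prop :=
  ∃ h : x ∈ V, IsLocalRing.residue V ⟨x, h⟩ = y

theorem Res.unique {x : ℂ} {y y' : IsLocalRing.ResidueField V} (h : Res V x y) (h' : Res V x y') :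
    y = y' := by
  obtain ⟨_, rfl⟩ := h
  obtain ⟨_, rfl⟩ := h'
  rfl

theorem Res.add {x x' : ℂ} {y y' : IsLocalRing.ResidueField V} (h : Res V x y) (h' : Res V x' y') :
    Res V (x + x') (y + y') := by
  obtain ⟨h1, rfl⟩ := h
  obtain ⟨h2, rfl⟩ := h'
  exact ⟨V.add_mem _ _ h1 h2, by rw [← map_add]; rfl⟩

theorem Res.mul {x x' : ℂ} {y y' : IsLocalRing.ResidueField V} (h : Res V x y) (h' : Res V x' y') :
    Res V (x * x') (y * y') := by
  obtain ⟨h1, rfl⟩ := h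
  obtain ⟨h2, rfl⟩ := h'
  exact ⟨V.mul_mem _ _ h1 h2, by rw [← map_mul]; rfl⟩

theorem Res.neg {x : ℂ} {y : IsLocalRing.ResidueField V} (h : Res V x y) : Res V (-x) (-y) := by
  obtain ⟨h1, rfl⟩ := h
  exact ⟨V.neg_mem _ h1, by rw [← map_neg]; rfl⟩

theorem Res.sub {x x' : ℂ} {y y' : IsLocalRing.ResidueField V} (h : Res V x y) (h' : Res V x' y') :
    Res V (x - x') (y - y') := by
  rw [sub_eq_add_neg, sub_eq_add_neg]; exact h.add h'.neg

theorem Res.one : Res V 1 1 := ⟨V.one_mem, map_one _⟩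

theorem Res.zero : Res V 0 0 := ⟨V.zero_mem, map_zero _⟩

theorem Res.pow {x : ℂ} {y : IsLocalRing.ResidueField V} (h : Res V x y) (n : ℕ) :
    Res V (x ^ n) (y ^ n) := by
  induction n with
  | zero => rw [pow_zero, pow_zero]; exact Res.one
  | succ n ih => rw [pow_succ, pow_succ]; exact ih.mul h

theorem Res.natCast (n : ℕ) : Res V (n : ℂ) (n : IsLocalRing.ResidueField V) := by
  induction n with
  | zero => rw [Nat.cast_zero, Nat.cast_zero]; exact Res.zero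
  | succ n ih => rw [Nat.cast_succ, Nat.cast_succ]; exact ih.add Res.one

theorem Res.intCast (n : ℤ) : Res V (n : ℂ) (n : IsLocalRing.ResidueField V) := by
  obtain ⟨n, rfl | rfl⟩ := n.eq_nat_or_neg
  · rw [Int.cast_natCast, Int.cast_natCast]; exact Res.natCast n
  · rw [Int.cast_neg, Int.cast_neg, Int.cast_natCast, Int.cast_natCast]; exact (Res.natCast n).neg

theorem Res.sum {ι : Type*} (s : Finset ι) {f : ι → ℂ} {g : ι → IsLocalRing.ResidueField V}
    (h : ∀ i ∈ s, Res V (f i) (g i)) : Res V (∑ i ∈ s, f i) (∑ i ∈ s, g i) := by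
  classical
  induction s using Finset.induction_on with
  | empty => rw [Finset.sum_empty, Finset.sum_empty]; exact Res.zero
  | insert a s ha ih =>
    rw [Finset.sum_insert ha, Finset.sum_insert ha]
    exact (h a (Finset.mem_insert_self a s)).add (ih fun i hi => h i (Finset.mem_insert_of_mem hi))

/-- inverse of a unit -/
theorem Res.inv {x : ℂ} {y : IsLocalRing.ResidueField V} (h : Res V x y) (hy : y ≠ 0) :
    Res V x⁻¹ y⁻¹ := by
  obtain ⟨h1, rfl⟩ := h
  have h2 : IsUnit (⟨x, h1⟩ : V) := by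
    by_contra h3
    exact hy ((IsLocalRing.residue_eq_zero_iff _).2 ((IsLocalRing.mem_maximalIdeal _).2 h3))
  obtain ⟨u, hu⟩ := h2
  have hx : x ≠ 0 := by
    rintro rfl
    exact hy (map_zero _)
  have h4 : ((u⁻¹ : Vˣ) : V).1 = x⁻¹ := by
    have h5 : (u : V) * ((u⁻¹ : Vˣ) : V) = 1 := Units.mul_inv u
    rw [hu] at h5
    have h6 := congrArg Subtype.val h5
    have h7 : x * ((u⁻¹ : Vˣ) : V).1 = 1 := h6
    exact eq_inv_of_mul_eq_one_right h7
  refine ⟨h4 ▸ ((u⁻¹ : Vˣ) : V).2, ?_⟩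
  apply eq_inv_of_mul_eq_one_right
  rw [← map_mul]
  have h8 : (⟨x, h1⟩ : V) * ⟨x⁻¹, h4 ▸ ((u⁻¹ : Vˣ) : V).2⟩ = 1 := by
    apply Subtype.ext
    exact mul_inv_cancel₀ hx
  rw [h8, map_one]

theorem Res.div {x x' : ℂ} {y y' : IsLocalRing.ResidueField V} (h : Res V x y) (h' : Res V x' y')
    (hy : y' ≠ 0) : Res V (x / x') (y / y') := by
  rw [div_eq_mul_inv, div_eq_mul_inv]; exact h.mul (h'.inv hy)

/-- dichotomy -/
theorem Res.dich (x : ℂ) : (∃ y, Res V x y) ∨ (x ≠ 0 ∧ Res V x⁻¹ 0) := by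
  by_cases hx : x ∈ V
  · left; exact ⟨_, hx, rfl⟩
  · right
    have hx0 : x ≠ 0 := by rintro rfl; exact hx V.zero_mem
    have h1 : x⁻¹ ∈ V := (V.mem_or_inv_mem x).resolve_left hx
    refine ⟨hx0, h1, ?_⟩
    by_contra h2
    have h3 : Res V x⁻¹ (IsLocalRing.residue V ⟨x⁻¹, h1⟩) := ⟨h1, rfl⟩
    obtain ⟨h4, -⟩ := h3.inv h2
    rw [inv_inv] at h4
    exact hx h4

/-- a number with integral sum and product with another one is integral -/
theorem Res.of_quad {x x' : ℂ} {s q : IsLocalRing.ResidueField V} (hs : Res V (x + x') s)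
    (hq : Res V (x * x') q) : ∃ y, Res V x y := by
  rcases Res.dich (V := V) x with h | ⟨hx0, h⟩
  · exact h
  · exfalso
    -- `x x' = x (s - x)`, multiply by `x⁻²`
    have h1 : (x * x') * x⁻¹ * x⁻¹ = (x + x') * x⁻¹ - 1 := by field_simp; ring
    have h2 : Res V ((x * x') * x⁻¹ * x⁻¹) (q * 0 * 0) := (hq.mul h).mul h
    have h3 : Res V ((x + x') * x⁻¹ - 1) (s * 0 - 1) := (hs.mul h).sub Res.one
    rw [h1] at h2
    have h4 := h2.unique h3
    simp at h4

theorem Res.of_sq {x : ℂ} {q : IsLocalRing.ResidueField V} (hq : Res V (x ^ 2) q) :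
    ∃ y, Res V x y ∧ y ^ 2 = q := by
  rcases Res.dich (V := V) x with ⟨y, h⟩ | ⟨hx0, h⟩
  · exact ⟨y, h, (h.pow 2).unique hq⟩
  · exfalso
    have h1 : x ^ 2 * x⁻¹ * x⁻¹ = 1 := by field_simp
    have h2 : Res V (x ^ 2 * x⁻¹ * x⁻¹) (q * 0 * 0) := (hq.mul h).mul h
    rw [h1] at h2
    have h4 := h2.unique Res.one
    simp at h4

/-- roots of unity -/
theorem Res.of_pow_one {x : ℂ} {n : ℕ} (hn : 0 < n) (hx : x ^ n = 1) :
    ∃ y : IsLocalRing.ResidueField V, Res V x y ∧ y ^ n = 1 := by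
  rcases Res.dich (V := V) x with ⟨y, h⟩ | ⟨hx0, h⟩
  · refine ⟨y, h, ?_⟩
    have := h.pow n
    rw [hx] at this
    exact this.unique Res.one
  · exfalso
    have h1 : (x⁻¹) ^ n = 1 := by rw [inv_pow, hx, inv_one]
    have h2 := h.pow n
    rw [h1, zero_pow hn.ne'] at h2
    exact zero_ne_one (h2.unique Res.one)

/-- existence of a place above `p` -/
theorem exists_place {p : ℕ} (hp : p.Prime) : ∃ V : ValuationSubring ℂ, Res V (p : ℂ) 0 := by
  obtain ⟨A, hA⟩ : ∃ A : Subring ℂ, A = (Int.castRingHom ℂ).range := ⟨_, rfl⟩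
  have hpA : (p : ℂ) ∈ A := by rw [hA]; exact ⟨(p : ℤ), by simp⟩
  have hI : (Ideal.span {(⟨(p : ℂ), hpA⟩ : A)}) ≠ ⊤ := by
    intro h
    rw [Ideal.eq_top_iff_one, Ideal.mem_span_singleton] at h
    obtain ⟨⟨c, hc⟩, h1⟩ := h
    have h2 := congrArg Subtype.val h1
    rw [hA] at hc
    obtain ⟨n, hn⟩ := hc
    have h3 : (1 : ℂ) = (p : ℂ) * c := h2
    rw [← hn] at h3
    have h4 : (1 : ℤ) = (p : ℤ) * n := by
      have : ((1 : ℤ) : ℂ) = (((p : ℤ) * n : ℤ) : ℂ) := by push_cast; simpa using h3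
      exact_mod_cast this
    have h5 : (p : ℤ) ∣ 1 := ⟨n, h4⟩
    have h6 : p ∣ 1 := by exact_mod_cast h5
    exact hp.one_lt.ne' (Nat.dvd_one.1 h6)
  obtain ⟨V, h1, h2⟩ := Ideal.image_subset_nonunits_valuationSubring _ hI
  refine ⟨V, h1 hpA, ?_⟩
  have h3 : (p : ℂ) ∈ V.nonunits := h2 ⟨⟨(p : ℂ), hpA⟩, Ideal.subset_span rfl, rfl⟩
  rw [IsLocalRing.residue_eq_zero_iff, IsLocalRing.mem_maximalIdeal]
  intro h4
  rw [ValuationSubring.mem_nonunits_iff_exists_mem_maximalIdeal] at h3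
  obtain ⟨h5, h6⟩ := h3
  exact (IsLocalRing.mem_maximalIdeal _).1 h6 h4

theorem charP_res {p : ℕ} (hp : p.Prime) (h : Res V (p : ℂ) 0) :
    CharP (IsLocalRing.ResidueField V) p := by
  have h1 : ((p : ℕ) : IsLocalRing.ResidueField V) = 0 := (Res.natCast p).unique h
  exact ringChar.of_eq (CharP.ringChar_of_prime_eq_zero hp h1)

end Pool.Agent.K3h22.SL
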