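import Mathlib
import Pool.Agent.K3h22.SL.H2
import Pool.Agent.K3h22.SL.F

set_option autoImplicit false

/-! # Eigenvectors of the squares: the character and its reduction -/

namespace Pool.Agent.K3h22.SL

open Finset Complex
open scoped ComplexConjugate

variable {p : ℕ} [Fact p.Prime] {m : ℕ} {V : ValuationSubring ℂ}

/-- data of an eigenvector -/
structure Eig (ψ : ZMod p → ℂ) (c : ZMod p → ℂ) : Prop where
  eig : ∀ g j : ZMod p, g ≠ 0 → ψ (g ^ 2 * j) = c g * ψ j
  ne : ∃ j, ψ j ≠ 0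

theorem Eig.c_mul {ψ c : ZMod p → ℂ} (h : Eig ψ c) {g l : ZMod p} (hg : g ≠ 0) (hl : l ≠ 0) :
    c (g * l) = c g * c l := by
  obtain ⟨j, hj⟩ := h.ne
  have h1 := h.eig (g * l) j (mul_ne_zero hg hl)
  have h2 : (g * l) ^ 2 * j = g ^ 2 * (l ^ 2 * j) := by ring
  rw [h2, h.eig g _ hg, h.eig l _ hl] at h1
  apply mul_right_cancel₀ hj
  rw [← h1]; ring

theorem Eig.c_one {ψ c : ZMod p → ℂ} (h : Eig ψ c) : c 1 = 1 := by
  obtain ⟨j, hj⟩ := h.ne
  have h1 := h.eig 1 j one_ne_zero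
  rw [one_pow, one_mul] at h1
  apply mul_right_cancel₀ hj
  rw [← h1]; ring

theorem Eig.c_neg_one {ψ c : ZMod p → ℂ} (h : Eig ψ c) : c (-1) = 1 := by
  obtain ⟨j, hj⟩ := h.ne
  have h1 := h.eig (-1) j (neg_ne_zero.2 one_ne_zero)
  have h2 : (-1 : ZMod p) ^ 2 * j = j := by ring
  rw [h2] at h1
  apply mul_right_cancel₀ hj
  rw [← h1]; ring

theorem Eig.c_pow {ψ c : ZMod p → ℂ} (h : Eig ψ c) {g : ZMod p} (hg : g ≠ 0) (n : ℕ) :
    c (g ^ n) = c g ^ n := by
  induction n with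
  | zero => rw [pow_zero, pow_zero]; exact h.c_one
  | succ n ih => rw [pow_succ, pow_succ, h.c_mul (pow_ne_zero n hg) hg, ih]

theorem Eig.c_pow_m {ψ c : ZMod p → ℂ} (h : Eig ψ c) (hm : p = 2 * m + 1) {g : ZMod p}
    (hg : g ≠ 0) : c g ^ m = 1 := by
  rw [← h.c_pow hg]
  have h1 := ZMod.pow_div_two_eq_neg_one_or_one (p := p) hg
  rw [show p / 2 = m by omega] at h1
  rcases h1 with h1 | h1 <;> rw [h1]
  · exact h.c_one
  · exact h.c_neg_one

theorem exists_r (hm : p = 2 * m + 1) (hm0 : 0 < m) (h3 : p % 4 = 3)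
    [CharP (IsLocalRing.ResidueField V) p] {ψ c : ZMod p → ℂ} (h : Eig ψ c) :
    ∃ r : ℕ, Even r ∧ r < 2 * m ∧ ∀ g : ZMod p, g ≠ 0 →
      Res V (c g) (ZMod.castHom (dvd_refl p) (IsLocalRing.ResidueField V) g ^ (2 * r)) := by
  obtain ⟨ι, hι⟩ : ∃ ι, ι = ZMod.castHom (dvd_refl p) (IsLocalRing.ResidueField V) := ⟨_, rfl⟩
  rw [← hι]
  obtain ⟨γ, hγ⟩ := IsCyclic.exists_generator (α := (ZMod p)ˣ)
  have hγ0 : (γ : ZMod p) ≠ 0 := γ.ne_zero
  obtain ⟨y, hy, hym⟩ := Res.of_pow_one (V := V) hm0 (h.c_pow_m hm hγ0)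
  have hyp : y ^ p = y := by
    rw [hm, pow_succ, mul_comm 2 m, pow_mul, hym, one_pow, one_mul]
  have hy0 : y ≠ 0 := by
    rintro rfl
    rw [zero_pow hm0.ne'] at hym
    exact zero_ne_one hym
  have hbot := (Subfield.mem_bot_iff_pow_eq_self (IsLocalRing.ResidueField V) p (x := y)).2 hyp
  obtain ⟨N, hN⟩ := (mem_bot_iff_intCast p (IsLocalRing.ResidueField V)).1 hbot
  have hyN : y = ι (N : ZMod p) := by rw [← hN, map_intCast]
  have hN0 : (N : ZMod p) ≠ 0 := by
    intro h0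
    rw [h0, map_zero] at hyN
    exact hy0 hyN
  have hgen : ∀ g : ZMod p, g ≠ 0 → ∃ i : ℕ, g = (γ : ZMod p) ^ i := by
    intro g hg
    have h1 := hγ (Units.mk0 g hg)
    rw [mem_zpowers_iff_mem_range_orderOf] at h1
    obtain ⟨i, -, hi⟩ := Finset.mem_image.1 h1
    exact ⟨i, by rw [← Units.val_pow_eq_pow_val, hi]; rfl⟩
  obtain ⟨n, hn⟩ := hgen _ hN0
  have hred : ∀ g : ZMod p, g ≠ 0 → Res V (c g) (ι g ^ n) := by
    intro g hg
    obtain ⟨i, hi⟩ := hgen g hg
    rw [hi, h.c_pow hγ0]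
    have h1 := hy.pow i
    rw [hyN, hn] at h1
    have h2 : ι ((γ : ZMod p) ^ n) ^ i = ι ((γ : ZMod p) ^ i) ^ n := by
      rw [← map_pow, ← map_pow]; congr 1; ring
    rw [← h2]; exact h1
  have hmodd : Odd m := by
    rw [Nat.odd_iff]; omega
  -- n is even
  have hneven : Even n := by
    have h1 := hred (-1) (neg_ne_zero.2 one_ne_zero)
    rw [h.c_neg_one, map_neg, map_one] at h1
    have h2 := h1.unique Res.one
    by_contra hodd
    rw [Nat.not_even_iff_odd] at hodd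
    rw [hodd.neg_one_pow] at h2
    have h4 : ι (-1) = ι 1 := by rw [map_neg, map_one, h2]
    have h5 := ι.injective h4
    have h6 : ((2 : ℕ) : ZMod p) = 0 := by
      push_cast
      linear_combination -h5
    have := Nat.le_of_dvd (by norm_num) ((ZMod.natCast_eq_zero_iff 2 p).1 h6)
    omega
  obtain ⟨n', hn'⟩ := hneven
  obtain ⟨r, hr1, hr2, q, hq⟩ : ∃ r : ℕ, Even r ∧ r < 2 * m ∧ ∃ q : ℕ, r + 0 = n' + m * q ∨
      n' = r + m * q := by
    by_cases hpar : Even (n' % m)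
    · exact ⟨n' % m, hpar, by have := Nat.mod_lt n' hm0; omega, n' / m,
        Or.inr (Nat.mod_add_div n' m).symm⟩
    · rw [Nat.not_even_iff_odd] at hpar
      have h7 := Nat.mod_add_div n' m
      rcases Nat.eq_zero_or_pos (n' / m) with h0 | h0
      · rw [h0, mul_zero, add_zero] at h7
        exact ⟨n' % m + m, hpar.add_odd hmodd, by have := Nat.mod_lt n' hm0; omega, 1,
          Or.inl (by omega)⟩
      · refine ⟨n' % m + m, hpar.add_odd hmodd, by have := Nat.mod_lt n' hm0; omega, n' / m - 1,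
          Or.inr ?_⟩
        obtain ⟨t, ht⟩ := Nat.exists_eq_succ_of_ne_zero h0.ne'
        rw [ht] at h7 ⊢
        rw [Nat.succ_sub_one, Nat.succ_eq_add_one] at *
        have h8 : m * (t + 1) = m * t + m := by ring
        omega
  refine ⟨r, hr1, hr2, fun g hg => ?_⟩
  have h1 : g ^ (2 * m) = 1 := by
    have := ZMod.pow_card_sub_one_eq_one hg
    rwa [show p - 1 = 2 * m by omega] at this
  have h2 : g ^ (2 * r) = g ^ n := by
    rcases hq with hq | hq
    · rw [add_zero] at hq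
      rw [hq, hn', show 2 * (n' + m * q) = (n' + n') + (2 * m) * q by ring, pow_add, pow_mul, h1,
        one_pow, mul_one]
    · rw [hn', hq, show r + m * q + (r + m * q) = 2 * r + (2 * m) * q by ring, pow_add, pow_mul _ (2 * m), h1,
        one_pow, mul_one]
  rw [← map_pow, h2, map_pow]
  exact hred g hg

/-- the reduction of a nontrivial eigenvalue character is nontrivial -/
theorem c_trivial (hm : p = 2 * m + 1) (hm0 : 0 < m)
    [CharP (IsLocalRing.ResidueField V) p] {ψ c : ZMod p → ℂ} (h : Eig ψ c) {g : ZMod p}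
    (hg : g ≠ 0) (h1 : Res V (c g) 1) : c g = 1 := by
  by_contra hne
  have h2 := h.c_pow_m hm hg
  have h3 : ∑ i ∈ range m, c g ^ i = 0 := by
    have := geom_sum_mul (c g) m
    rw [h2, sub_self] at this
    exact (mul_eq_zero.1 this).resolve_right (sub_ne_zero.2 hne)
  have h4 : Res V (∑ i ∈ range m, c g ^ i) (∑ i ∈ range m, (1 : IsLocalRing.ResidueField V) ^ i) :=
    Res.sum _ fun i _ => h1.pow i
  rw [h3] at h4
  simp only [one_pow, Finset.sum_const, Finset.card_range, nsmul_eq_mul, mul_one] at h4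
  have h5 := h4.unique Res.zero
  have h6 := (CharP.cast_eq_zero_iff (IsLocalRing.ResidueField V) p m).1 h5
  have := Nat.le_of_dvd hm0 h6
  omega

theorem exists_sqrt (h3 : p % 4 = 3) {j : ZMod p} (hj : j ≠ 0) :
    ∃ g : ZMod p, g ≠ 0 ∧ g ^ 2 = (ch j : ZMod p) * j := by
  have hsq : ∀ x : ZMod p, x ≠ 0 → ch x = 1 → ∃ g : ZMod p, g ≠ 0 ∧ g ^ 2 = x := by
    intro x hx hx1
    unfold ch at hx1
    obtain ⟨g, hg⟩ := (quadraticChar_one_iff_isSquare hx).1 hx1
    refine ⟨g, ?_, by rw [hg, pow_two]⟩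
    rintro rfl
    exact hx (by rw [hg, mul_zero])
  rcases ch_pm hj with hc | hc
  · rw [hc]; push_cast; rw [one_mul]; exact hsq j hj hc
  · rw [hc]; push_cast; rw [neg_one_mul]
    exact hsq (-j) (neg_ne_zero.2 hj) (by rw [ch_neg h3, hc]; norm_num)

theorem exists_eta (hm : p = 2 * m + 1) (hm0 : 0 < m) (h3 : p % 4 = 3)
    [CharP (IsLocalRing.ResidueField V) p] {ψ c : ZMod p → ℂ} (h : Eig ψ c)
    (hnt : ∃ g : ZMod p, g ≠ 0 ∧ c g ≠ 1) :
    ∃ (r : ℕ) (η : ZMod p → ℂ), Even r ∧ 0 < r ∧ r < 2 * m ∧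
      (∀ j, Res V (η j) (ZMod.castHom (dvd_refl p) (IsLocalRing.ResidueField V) j ^ r)) ∧
      (∀ j, Res V (conj (η j))
        (ZMod.castHom (dvd_refl p) (IsLocalRing.ResidueField V) j ^ (2 * m - r))) ∧
      (∀ j, j ≠ 0 → η j * conj (η j) = 1) ∧ η 0 = 0 ∧
      ∀ j, ψ j = η j * ((ψ 1 + ψ (-1)) / 2 + (ψ 1 - ψ (-1)) / 2 * ch j) := by
  classical
  obtain ⟨r, hr1, hr2, hr⟩ := exists_r (V := V) hm hm0 h3 h
  obtain ⟨ι, hι⟩ : ∃ ι, ι = ZMod.castHom (dvd_refl p) (IsLocalRing.ResidueField V) := ⟨_, rfl⟩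
  rw [← hι] at hr ⊢
  have hr0 : 0 < r := by
    rcases Nat.eq_zero_or_pos r with h0 | h0
    · exfalso
      obtain ⟨g, hg, hg1⟩ := hnt
      have := hr g hg
      rw [h0, mul_zero, pow_zero] at this
      exact hg1 (c_trivial hm hm0 h hg this)
    · exact h0
  have hex : ∀ j : ZMod p, ∃ g : ZMod p, j ≠ 0 → g ≠ 0 ∧ g ^ 2 = (ch j : ZMod p) * j := by
    intro j
    by_cases hj : j = 0
    · exact ⟨0, fun h' => absurd hj h'⟩
    · obtain ⟨g, hg⟩ := exists_sqrt h3 hj
      exact ⟨g, fun _ => hg⟩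
  choose s hs using hex
  have hψ0 : ψ 0 = 0 := by
    obtain ⟨g, hg, hg1⟩ := hnt
    have h1 := h.eig g 0 hg
    rw [mul_zero] at h1
    have h2 : (c g - 1) * ψ 0 = 0 := by linear_combination -h1
    exact (mul_eq_zero.1 h2).resolve_left (sub_ne_zero.2 hg1)
  have hnorm : ∀ j : ZMod p, j ≠ 0 → c (s j) * conj (c (s j)) = 1 := by
    intro j hj
    have h1 := h.c_pow_m hm (hs j hj).1
    have h2 : ‖c (s j)‖ = 1 := Complex.norm_eq_one_of_pow_eq_one h1 hm0.ne'
    rw [Complex.mul_conj, Complex.normSq_eq_norm_sq, h2]; simp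
  have hresc : ∀ j : ZMod p, j ≠ 0 → Res V (c (s j)) (ι j ^ r) := by
    intro j hj
    have h1 := hr (s j) (hs j hj).1
    have h2 : s j ^ (2 * r) = j ^ r := by
      rw [pow_mul, (hs j hj).2, mul_pow]
      obtain ⟨r', hr'⟩ := hr1
      rcases ch_pm hj with hc | hc
      · rw [hc]; simp
      · rw [hc, hr']; push_cast
        rw [← two_mul, pow_mul (-1 : ZMod p) 2 r']; simp
    rw [← map_pow, h2, map_pow] at h1
    exact h1
  refine ⟨r, fun j => if j = 0 then 0 else c (s j), hr1, hr0, hr2, ?_, ?_, ?_, ?_, ?_⟩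
  · intro j
    by_cases hj : j = 0
    · simp only [if_pos hj]
      rw [hj, map_zero, zero_pow hr0.ne']; exact Res.zero
    · simp only [if_neg hj]
      exact hresc j hj
  · intro j
    by_cases hj : j = 0
    · simp only [if_pos hj]
      rw [hj, map_zero, map_zero, zero_pow (by omega)]; exact Res.zero
    · simp only [if_neg hj]
      have h1 := hresc j hj
      have hιj : ι j ≠ 0 := by
        rw [Ne, map_eq_zero]; exact hj
      have h2 := h1.inv (pow_ne_zero r hιj)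
      have h4 : (c (s j))⁻¹ = conj (c (s j)) := by
        apply inv_eq_of_mul_eq_one_right
        exact hnorm j hj
      rw [h4] at h2
      have h5 : (ι j ^ r)⁻¹ = ι j ^ (2 * m - r) := by
        apply inv_eq_of_mul_eq_one_right
        rw [← pow_add, show r + (2 * m - r) = p - 1 by omega, ← map_pow,
          ZMod.pow_card_sub_one_eq_one hj, map_one]
      rw [h5] at h2
      exact h2
  · intro j hj
    simp only [if_neg hj]
    exact hnorm j hj
  · simp
  · intro j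
    by_cases hj : j = 0
    · simp only [if_pos hj]
      rw [hj, hψ0, zero_mul]
    · simp only [if_neg hj]
      obtain ⟨h1, h2⟩ := hs j hj
      rcases ch_pm hj with hc | hc
      · rw [hc] at h2 ⊢
        push_cast at h2 ⊢
        rw [one_mul] at h2
        have h4 := h.eig (s j) 1 h1
        rw [mul_one, h2] at h4
        rw [h4]; ring
      · rw [hc] at h2 ⊢
        push_cast at h2 ⊢
        rw [neg_one_mul] at h2
        have h4 := h.eig (s j) (-1) h1
        have h5 : s j ^ 2 * (-1) = j := by rw [h2]; ring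
        rw [h5] at h4
        rw [h4]; ring

end Pool.Agent.K3h22.SL
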