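import Mathlib
import Pool.Agent.K3h22.SL.H1
import Pool.Agent.K3h22.SL.H3
import Pool.Agent.K3h22.SL.G

set_option autoImplicit false

/-! # Eigenvectors of the squares with a nontrivial character: preparations -/

namespace Pool.Agent.K3h22.SL

open Finset Complex
open scoped ComplexConjugate
open Pool.Agent.R503.SIC

variable {p : ℕ} [Fact p.Prime] {m : ℕ}

theorem ds1 (hm : p = 2 * m + 1) (hm0 : 1 < m) {r : ℕ} (hr0 : 0 < r) (hrm : r < m) :
    DS p m r (2 * m - r) (2 * m - r) r = 2 * r + 1 := by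
  rw [DS_eq hm (by omega) (by omega) (by omega) hr0]
  have e1 : r + (2 * m - r) - 1 = 2 * m - 1 := by omega
  have e2 : 2 * m - r + r = 2 * m := by omega
  have e3 : r + (2 * m - r) = 2 * m := by omega
  rw [e1, e2, e3, qsum hm (by omega) (by omega) (by omega), qsum hm (by omega) (by omega) (by omega)]
  have e4 : 2 * m - (2 * m - 1) = 1 := by omega
  rw [e4, Nat.sub_self, Nat.choose_one_right, Nat.choose_zero_right]
  have h1 : ((2 * m - r : ℕ) : ZMod p) = 2 * m - r := by
    rw [Nat.cast_sub (by omega)]; push_cast; ring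
  have h2 : ((2 * m + 1 : ℕ) : ZMod p) = 0 := by rw [← hm]; simp
  push_cast at h2
  rw [h1]
  push_cast
  linear_combination (2 * m - r - 1) * h2

theorem ds2 (hm : p = 2 * m + 1) (hm0 : 1 < m) {r : ℕ} (hr0 : 0 < r) (hrm : r < m) :
    DS p m (r + m) (m - r) (m - r) (r + m) = 2 * r := by
  rw [DS_eq hm (by omega) (by omega) (by omega) (by omega)]
  have e1 : r + m + (m - r) - 1 = 2 * m - 1 := by omega
  have e2 : m - r + (r + m) = 2 * m := by omega
  have e3 : r + m + (m - r) = 2 * m := by omega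
  rw [e1, e2, e3, qsum hm (by omega) (by omega) (by omega), qsum hm (by omega) (by omega) (by omega)]
  have e4 : 2 * m - (2 * m - 1) = 1 := by omega
  rw [e4, Nat.sub_self, Nat.choose_one_right, Nat.choose_zero_right]
  have h1 : ((m - r : ℕ) : ZMod p) = m - r := by
    rw [Nat.cast_sub (by omega)]
  have h2 : ((2 * m + 1 : ℕ) : ZMod p) = 0 := by rw [← hm]; simp
  push_cast at h2
  rw [h1]
  push_cast
  linear_combination (m - r) * h2

theorem ds3 (hm : p = 2 * m + 1) (hm0 : 1 < m) {r : ℕ} (hr0 : 0 < r) (hrm : r < m) :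
    DS p m r (m - r) (m - r) r = 0 := by
  rw [DS_eq hm (by omega) (by omega) (by omega) (by omega)]
  rw [qsum hm (by omega) (by omega) (by omega), qsum hm (by omega) (by omega) (by omega)]
  rw [Nat.choose_eq_zero_of_lt (by omega), Nat.choose_eq_zero_of_lt (by omega)]
  simp

/-- reduction of the exponents in the double sum -/
theorem ds_red (hm : p = 2 * m + 1) {r : ℕ} (hrm : r < m) (A D : ℕ) :
    DS p m A (3 * m - r) (3 * m - r) D = DS p m A (m - r) (m - r) D := by
  have h1 : ∀ y : ZMod p, y ^ (3 * m - r) = y ^ (m - r) := by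
    intro y
    rw [show 3 * m - r = 2 * m + (m - r) by omega, red hm (by omega)]
  unfold DS
  simp only [h1]

/-- norm equation from the moduli -/
theorem normEq' (hp : p ≠ 2) {ψ : ZMod p → ℂ} (hψ : Fid ψ) {α β γ : ℝ}
    (h : ∀ j, normSq (ψ j) = α + β * ch j + γ * dr j) : p * α + γ = 1 := by
  have h1 := hψ.1
  simp only [← Complex.normSq_eq_norm_sq, h, Finset.sum_add_distrib, ← Finset.mul_sum] at h1
  have h2 : ∑ j : ZMod p, ((ch j : ℤ) : ℝ) = 0 := by exact_mod_cast s0 hp
  have h3 : ∑ j : ZMod p, dr j = 1 := by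
    have := sum_dr (p := p) 0 fun _ => 1
    simpa using this
  rw [h2, h3, Finset.sum_const, Finset.card_univ, ZMod.card, nsmul_eq_mul] at h1
  linear_combination h1

theorem modEq' (h3 : p % 4 = 3) {ψ : ZMod p → ℂ} (hψ : Fid ψ) {α β γ : ℝ}
    (h : ∀ j, normSq (ψ j) = α + β * ch j + γ * dr j) :
    p * α ^ 2 + 2 * α * γ - β ^ 2 = 1 / ((p : ℝ) + 1) := by
  have hp : p ≠ 2 := by intro h; rw [h] at h3; norm_num at h3
  have hpr : p.Prime := Fact.out
  have h1 := TT_eq hψ 0 1
  have h10 : (1 : ZMod p) ≠ 0 := one_ne_zero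
  rw [if_pos rfl, if_neg h10, add_zero] at h1
  have h2 : TT ψ 0 1 = ((∑ j, normSq (ψ j) * normSq (ψ (j + 1)) : ℝ) : ℂ) := by
    unfold TT
    push_cast
    refine Finset.sum_congr rfl fun j _ => ?_
    rw [add_zero, ← Complex.mul_conj, ← Complex.mul_conj]
    ring
  rw [h2] at h1
  have h4 : ∑ j, normSq (ψ j) * normSq (ψ (j + 1)) = 1 / ((p : ℝ) + 1) := by
    apply Complex.ofReal_injective
    rw [h1]; push_cast; ring
  rw [← h4]
  have h5 : ∀ j : ZMod p, normSq (ψ j) * normSq (ψ (j + 1)) =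
      α ^ 2 + α * β * ch j + α * β * ch (j + 1) + β ^ 2 * (ch j * ch (j + 1)) +
      dr (j + 0) * (γ * (α + β * ch (j + 1) + γ * dr (j + 1))) +
      dr (j + 1) * (γ * (α + β * ch j)) := by
    intro j
    rw [h, h, add_zero]
    ring
  rw [Finset.sum_congr rfl fun j _ => h5 j]
  simp only [Finset.sum_add_distrib, ← Finset.mul_sum]
  have c0 : ∑ j : ZMod p, ((ch j : ℤ) : ℝ) = 0 := by exact_mod_cast s0 hp
  have c1 : ∑ j : ZMod p, ((ch (j + 1) : ℤ) : ℝ) = 0 := by exact_mod_cast s1 hp 1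
  have c2 : ∑ j : ZMod p, (((ch j : ℤ) : ℝ) * ((ch (j + 1) : ℤ) : ℝ)) = -1 := by
    exact_mod_cast s2' hp h10
  have t0 := sum_dr (p := p) 0 fun j => γ * (α + β * ch (j + 1) + γ * dr (j + 1))
  have t1 := sum_dr (p := p) 1 fun j => γ * (α + β * ch j)
  rw [t0, t1, c0, c1, c2, Finset.sum_const, Finset.card_univ, ZMod.card, nsmul_eq_mul, neg_zero,
    zero_add, ch_neg h3, ch_one]
  have d1 : dr (1 : ZMod p) = 0 := by unfold dr; rw [if_neg h10]
  rw [d1]
  push_cast
  ring

theorem fid_conj {d : ℕ} [NeZero d] {ψ : ZMod d → ℂ} (hψ : Fid ψ) : Fid (fun j => conj (ψ j)) := by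
  refine ⟨?_, fun a b hab => ?_⟩
  · simp only [Complex.norm_conj]
    exact hψ.1
  · have h1 : ov (fun j => conj (ψ j)) a b = conj (ov ψ a (-b)) := by
      unfold ov
      rw [map_sum]
      refine Finset.sum_congr rfl fun j _ => ?_
      simp only [map_mul, Complex.conj_conj, conj_e]
      rw [show -(-b * j) = b * j by ring]
    rw [h1, Complex.norm_conj]
    refine hψ.2 a (-b) fun h => hab ?_
    rw [Prod.mk.injEq] at h ⊢
    exact ⟨h.1, neg_eq_zero.1 h.2⟩

end Pool.Agent.K3h22.SL
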