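import Mathlib
import Pool.Agent.K3h22.SL.H4

set_option autoImplicit false

/-! # Eigenvectors of the squares with a nontrivial character do not exist -/

namespace Pool.Agent.K3h22.SL

open Finset Complex
open scoped ComplexConjugate
open Pool.Agent.R503.SIC

variable {p : ℕ} [Fact p.Prime] {m : ℕ} {V : ValuationSubring ℂ}

/-- the data of an eigenvector -/
structure Data (m : ℕ) (V : ValuationSubring ℂ) (ι : ZMod p →+* IsLocalRing.ResidueField V)
    (r : ℕ) (η : ZMod p → ℂ) (u v : ℂ) (ψ : ZMod p → ℂ) : Prop where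
  res : ∀ j, Res V (η j) (ι j ^ r)
  res' : ∀ j, Res V (conj (η j)) (ι j ^ (2 * m - r))
  nrm : ∀ j, j ≠ 0 → η j * conj (η j) = 1
  zero : η 0 = 0
  eq : ∀ j, ψ j = η j * (u + v * ch j)

theorem res_ch (hm : p = 2 * m + 1) (hm0 : 0 < m) (ι : ZMod p →+* IsLocalRing.ResidueField V)
    (j : ZMod p) : Res V ((ch j : ℤ) : ℂ) (ι j ^ m) := by
  have h1 := Res.intCast (V := V) (ch j)
  have h2 := chF hm hm0 j
  have h3 : (((ch j : ℤ)) : IsLocalRing.ResidueField V) = ι j ^ m := by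
    rw [← map_pow, ← h2, map_intCast]
  rwa [h3] at h1

section

variable {ι : ZMod p →+* IsLocalRing.ResidueField V} {r : ℕ} {η : ZMod p → ℂ} {u v : ℂ}
  {ψ : ZMod p → ℂ}

theorem Data.s1 (h : Data m V ι r η u v ψ) (hm : p = 2 * m + 1) (hm0 : 1 < m) (hrm : r < m) :
    Res V (∑ j, η j * conj (η (j + 1))) (-1) := by
  have h1 : Res V (∑ j, η j * conj (η (j + 1))) (∑ j, ι j ^ r * ι (j + 1) ^ (2 * m - r)) :=
    Res.sum _ fun j _ => (h.res j).mul (h.res' (j + 1))
  have h2 : ∑ j, ι j ^ r * ι (j + 1) ^ (2 * m - r) = ι (∑ j, j ^ r * (j + 1) ^ (2 * m - r)) := by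
    rw [map_sum]; simp only [map_mul, map_pow]
  rw [h2, qsum hm (by omega) (by omega) (by omega), Nat.choose_self, Nat.cast_one, map_neg,
    map_one] at h1
  exact h1

theorem Data.s1' (h : Data m V ι r η u v ψ) (hm : p = 2 * m + 1) (hm0 : 1 < m) (hrm : r < m) :
    Res V (∑ j, conj (η j) * η (j + 1)) (-1) := by
  have h1 : Res V (∑ j, conj (η j) * η (j + 1)) (∑ j, ι j ^ (2 * m - r) * ι (j + 1) ^ r) :=
    Res.sum _ fun j _ => (h.res' j).mul (h.res (j + 1))
  have h2 : ∑ j, ι j ^ (2 * m - r) * ι (j + 1) ^ r = ι (∑ j, j ^ (2 * m - r) * (j + 1) ^ r) := by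
    rw [map_sum]; simp only [map_mul, map_pow]
  rw [h2, qsum hm (by omega) (by omega) (by omega), show 2 * m - (2 * m - r) = r by omega,
    Nat.choose_self, Nat.cast_one, map_neg, map_one] at h1
  exact h1

theorem Data.sL (h : Data m V ι r η u v ψ) (hm : p = 2 * m + 1) (hm0 : 1 < m) (hrm : r < m) :
    Res V (∑ j, η j * (conj (η (j + 1)) * (ch (j + 1) : ℤ))) 0 := by
  have h1 : Res V (∑ j, η j * (conj (η (j + 1)) * (ch (j + 1) : ℤ)))
      (∑ j, ι j ^ r * (ι (j + 1) ^ (2 * m - r) * ι (j + 1) ^ m)) :=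
    Res.sum _ fun j _ => (h.res j).mul ((h.res' (j + 1)).mul (res_ch hm (by omega) ι (j + 1)))
  have h2 : ∑ j, ι j ^ r * (ι (j + 1) ^ (2 * m - r) * ι (j + 1) ^ m) =
      ι (∑ j, j ^ r * (j + 1) ^ (m - r)) := by
    rw [map_sum]
    refine Finset.sum_congr rfl fun j _ => ?_
    rw [map_mul, map_pow, map_pow, ← pow_add, ← map_pow ι (j + 1),
      show 2 * m - r + m = 2 * m + (m - r) by omega, red hm (by omega), map_pow]
  rw [h2, qsum hm (by omega) (by omega) (by omega), Nat.choose_eq_zero_of_lt (by omega),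
    Nat.cast_zero, neg_zero, map_zero] at h1
  exact h1

theorem Data.sJ' (h : Data m V ι r η u v ψ) (hm : p = 2 * m + 1) (hm0 : 1 < m) (hrm : r < m) :
    Res V (∑ j, (conj (η j) * (ch j : ℤ)) * η (j + 1)) 0 := by
  have h1 : Res V (∑ j, (conj (η j) * (ch j : ℤ)) * η (j + 1))
      (∑ j, (ι j ^ (2 * m - r) * ι j ^ m) * ι (j + 1) ^ r) :=
    Res.sum _ fun j _ => ((h.res' j).mul (res_ch hm (by omega) ι j)).mul (h.res (j + 1))
  have h2 : ∑ j, (ι j ^ (2 * m - r) * ι j ^ m) * ι (j + 1) ^ r =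
      ι (∑ j, j ^ (m - r) * (j + 1) ^ r) := by
    rw [map_sum]
    refine Finset.sum_congr rfl fun j _ => ?_
    rw [map_mul, map_pow, map_pow, ← pow_add, ← map_pow, ← map_pow ι j,
      show 2 * m - r + m = 2 * m + (m - r) by omega, red hm (by omega)]
  rw [h2, qsum hm (by omega) (by omega) (by omega), Nat.choose_eq_zero_of_lt (by omega),
    Nat.cast_zero, neg_zero, map_zero] at h1
  exact h1

theorem Data.s2 (h : Data m V ι r η u v ψ) (hm : p = 2 * m + 1) (hm0 : 1 < m) (hrm : r < m) :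
    Res V (∑ j, (η j * (ch j : ℤ)) * (conj (η (j + 1)) * (ch (j + 1) : ℤ))) (-1) := by
  have h1 : Res V (∑ j, (η j * (ch j : ℤ)) * (conj (η (j + 1)) * (ch (j + 1) : ℤ)))
      (∑ j, (ι j ^ r * ι j ^ m) * (ι (j + 1) ^ (2 * m - r) * ι (j + 1) ^ m)) :=
    Res.sum _ fun j _ => ((h.res j).mul (res_ch hm (by omega) ι j)).mul
      ((h.res' (j + 1)).mul (res_ch hm (by omega) ι (j + 1)))
  have h2 : ∑ j, (ι j ^ r * ι j ^ m) * (ι (j + 1) ^ (2 * m - r) * ι (j + 1) ^ m) =
      ι (∑ j, j ^ (r + m) * (j + 1) ^ (m - r)) := by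
    rw [map_sum]
    refine Finset.sum_congr rfl fun j _ => ?_
    rw [map_mul, map_pow, map_pow, ← pow_add, ← pow_add, ← map_pow ι (j + 1), ← map_pow ι (j + 1),
      show 2 * m - r + m = 2 * m + (m - r) by omega, red hm (by omega)]
  rw [h2, qsum hm (by omega) (by omega) (by omega), show 2 * m - (r + m) = m - r by omega,
    Nat.choose_self, Nat.cast_one, map_neg, map_one] at h1
  exact h1

theorem Data.s2' (h : Data m V ι r η u v ψ) (hm : p = 2 * m + 1) (hm0 : 1 < m) (hrm : r < m) :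
    Res V (∑ j, (conj (η j) * (ch j : ℤ)) * (η (j + 1) * (ch (j + 1) : ℤ))) (-1) := by
  have h1 : Res V (∑ j, (conj (η j) * (ch j : ℤ)) * (η (j + 1) * (ch (j + 1) : ℤ)))
      (∑ j, (ι j ^ (2 * m - r) * ι j ^ m) * (ι (j + 1) ^ r * ι (j + 1) ^ m)) :=
    Res.sum _ fun j _ => ((h.res' j).mul (res_ch hm (by omega) ι j)).mul
      ((h.res (j + 1)).mul (res_ch hm (by omega) ι (j + 1)))
  have h2 : ∑ j, (ι j ^ (2 * m - r) * ι j ^ m) * (ι (j + 1) ^ r * ι (j + 1) ^ m) =
      ι (∑ j, j ^ (m - r) * (j + 1) ^ (r + m)) := by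
    rw [map_sum]
    refine Finset.sum_congr rfl fun j _ => ?_
    rw [map_mul, map_pow, map_pow, ← pow_add, ← pow_add, ← map_pow ι j, ← map_pow ι j,
      show 2 * m - r + m = 2 * m + (m - r) by omega, red hm (by omega)]
  rw [h2, qsum hm (by omega) (by omega) (by omega), show 2 * m - (m - r) = r + m by omega,
    Nat.choose_self, Nat.cast_one, map_neg, map_one] at h1
  exact h1

/-- the residue of the Jacobi sum -/
noncomputable def kap (p : ℕ) [Fact p.Prime] (m r : ℕ) : ZMod p :=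
  ∑ j : ZMod p, j ^ (r + m) * (j + 1) ^ (2 * m - r)

theorem kap_ne (hm : p = 2 * m + 1) (hm0 : 1 < m) {r : ℕ} (hrm : r < m) : kap p m r ≠ 0 := by
  unfold kap
  rw [qsum hm (by omega) (by omega) (by omega), neg_ne_zero]
  intro h
  have h1 := (ZMod.natCast_eq_zero_iff _ p).1 h
  have hp : p.Prime := Fact.out
  have h2 : Nat.choose (2 * m - r) (2 * m - (r + m)) ∣ (2 * m - r).factorial := by
    have := Nat.choose_mul_factorial_mul_factorial (show 2 * m - (r + m) ≤ 2 * m - r by omega)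
    rw [← this, mul_assoc]
    exact Dvd.intro _ rfl
  have h3 := (hp.dvd_factorial).1 (h1.trans h2)
  omega

theorem Data.sJ (h : Data m V ι r η u v ψ) (hm : p = 2 * m + 1) (hm0 : 1 < m) :
    Res V (∑ j, (η j * (ch j : ℤ)) * conj (η (j + 1))) (ι (kap p m r)) := by
  have h1 : Res V (∑ j, (η j * (ch j : ℤ)) * conj (η (j + 1)))
      (∑ j, (ι j ^ r * ι j ^ m) * ι (j + 1) ^ (2 * m - r)) :=
    Res.sum _ fun j _ => ((h.res j).mul (res_ch hm (by omega) ι j)).mul (h.res' (j + 1))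
  have h2 : ∑ j, (ι j ^ r * ι j ^ m) * ι (j + 1) ^ (2 * m - r) = ι (kap p m r) := by
    unfold kap
    rw [map_sum]
    refine Finset.sum_congr rfl fun j _ => ?_
    rw [map_mul, map_pow, map_pow, ← pow_add]
  rw [h2] at h1
  exact h1

theorem Data.sL' (h : Data m V ι r η u v ψ) (hm : p = 2 * m + 1) (hm0 : 1 < m) (hodd : Odd m)
    (hr : r < m) :
    Res V (∑ j, conj (η j) * (η (j + 1) * (ch (j + 1) : ℤ))) (-ι (kap p m r)) := by
  have h1 : Res V (∑ j, conj (η j) * (η (j + 1) * (ch (j + 1) : ℤ)))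
      (∑ j, ι j ^ (2 * m - r) * (ι (j + 1) ^ r * ι (j + 1) ^ m)) :=
    Res.sum _ fun j _ => (h.res' j).mul ((h.res (j + 1)).mul (res_ch hm (by omega) ι (j + 1)))
  have h2 : ∑ j, ι j ^ (2 * m - r) * (ι (j + 1) ^ r * ι (j + 1) ^ m) = -ι (kap p m r) := by
    unfold kap
    rw [map_sum, ← Finset.sum_neg_distrib]
    refine Fintype.sum_equiv (Equiv.subLeft (-1)) _ _ fun j => ?_
    simp only [Equiv.subLeft_apply]
    have e1 : (-1 : ZMod p) - j = -(j + 1) := by ring
    have e2 : -(j + 1) + 1 = -j := by ring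
    rw [e1, e2, neg_pow (j + 1), neg_pow j, map_mul, map_mul, map_mul, map_pow, map_pow, map_pow,
      map_pow, map_neg, map_one, ← pow_add]
    have h3 : (-1 : IsLocalRing.ResidueField V) ^ (r + m) * (-1) ^ (2 * m - r) = -1 := by
      rw [← pow_add, show r + m + (2 * m - r) = 3 * m by omega, pow_mul]
      have : (-1 : IsLocalRing.ResidueField V) ^ 3 = -1 := by norm_num
      rw [this, hodd.neg_one_pow]
    linear_combination (ι j ^ (2 * m - r) * ι (j + 1) ^ (r + m)) * h3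
  rw [h2] at h1
  exact h1

end

end Pool.Agent.K3h22.SL
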