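import Mathlib
import Pool.Agent.K3h22.SL.H5

set_option autoImplicit false

/-! # Eigenvectors of the squares with a nontrivial character do not exist -/

namespace Pool.Agent.K3h22.SL

open Finset Complex
open scoped ComplexConjugate
open Pool.Agent.R503.SIC

variable {p : ℕ} [Fact p.Prime] {m : ℕ} {V : ValuationSubring ℂ}
  {ι : ZMod p →+* IsLocalRing.ResidueField V} {r : ℕ} {η : ZMod p → ℂ} {u v : ℂ}
  {ψ : ZMod p → ℂ}

theorem Data.ov10 (h : Data m V ι r η u v ψ) :
    ov ψ 1 0 = (u * conj u) * (∑ j, η j * conj (η (j + 1))) +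
      (u * conj v) * (∑ j, η j * (conj (η (j + 1)) * (ch (j + 1) : ℤ))) +
      (v * conj u) * (∑ j, (η j * (ch j : ℤ)) * conj (η (j + 1))) +
      (v * conj v) * (∑ j, (η j * (ch j : ℤ)) * (conj (η (j + 1)) * (ch (j + 1) : ℤ))) := by
  unfold ov
  simp only [Finset.mul_sum]
  rw [← Finset.sum_add_distrib, ← Finset.sum_add_distrib, ← Finset.sum_add_distrib]
  refine Finset.sum_congr rfl fun j _ => ?_
  rw [h.eq j, h.eq (j + 1), zero_mul, e_zero]
  simp only [map_add, map_mul, map_intCast]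
  ring

theorem Data.ov10' (h : Data m V ι r η u v ψ) :
    conj (ov ψ 1 0) = (u * conj u) * (∑ j, conj (η j) * η (j + 1)) +
      (v * conj u) * (∑ j, conj (η j) * (η (j + 1) * (ch (j + 1) : ℤ))) +
      (u * conj v) * (∑ j, (conj (η j) * (ch j : ℤ)) * η (j + 1)) +
      (v * conj v) * (∑ j, (conj (η j) * (ch j : ℤ)) * (η (j + 1) * (ch (j + 1) : ℤ))) := by
  unfold ov
  rw [map_sum]
  simp only [Finset.mul_sum]
  rw [← Finset.sum_add_distrib, ← Finset.sum_add_distrib, ← Finset.sum_add_distrib]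
  refine Finset.sum_congr rfl fun j _ => ?_
  rw [h.eq j, h.eq (j + 1), zero_mul, e_zero]
  simp only [map_add, map_mul, map_intCast, Complex.conj_conj, map_one]
  ring

theorem Data.modulus (h : Data m V ι r η u v ψ) (j : ZMod p) :
    normSq (ψ j) = (normSq u + normSq v) + 2 * (u * conj v).re * ch j +
      (-(normSq u + normSq v)) * dr j := by
  rw [h.eq j]
  unfold dr
  by_cases hj : j = 0
  · rw [if_pos hj, hj, h.zero, ch_zero, zero_mul, Complex.normSq_zero]
    push_cast; ring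
  · rw [if_neg hj, Complex.normSq_mul]
    have h1 : normSq (η j) = 1 := by
      have := h.nrm j hj
      rw [Complex.mul_conj] at this
      exact_mod_cast this
    rw [h1]
    rcases ch_pm hj with hc | hc <;> rw [hc] <;>
    simp only [Complex.normSq_apply, Complex.add_re, Complex.add_im, Complex.mul_re, Complex.mul_im,
      Complex.conj_re, Complex.conj_im, Int.cast_one, Int.cast_neg, Complex.one_re, Complex.one_im,
      Complex.neg_re, Complex.neg_im] <;>
    ring

/-- the norm -/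
theorem Data.res_norm (h : Data m V ι r η u v ψ) (hp : p ≠ 2) (hψ : Fid ψ)
    (hV : Res V (p : ℂ) 0) : Res V (u * conj u + v * conj v) (-1) := by
  have h1 := normEq' hp hψ h.modulus
  have h2 : ((p : ℂ) - 1) * (u * conj u + v * conj v) = 1 := by
    rw [Complex.mul_conj, Complex.mul_conj]
    have := congrArg (Complex.ofReal) h1
    push_cast at this
    linear_combination this
  have h3 : Res V ((p : ℂ) - 1) (0 - 1) := hV.sub Res.one
  have h4 := h3.inv (by simp)
  have h5 : u * conj u + v * conj v = ((p : ℂ) - 1)⁻¹ := eq_inv_of_mul_eq_one_right h2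
  rw [h5]
  have h6 : ((0 : IsLocalRing.ResidueField V) - 1)⁻¹ = -1 := by norm_num
  rw [h6] at h4
  exact h4

theorem Data.res_Q (h : Data m V ι r η u v ψ) (h3 : p % 4 = 3) (hψ : Fid ψ)
    (hV : Res V (p : ℂ) 0) : Res V ((u * conj v + v * conj u) ^ 2) (-3) := by
  have hp : p ≠ 2 := by intro h; rw [h] at h3; norm_num at h3
  have h1 := modEq' h3 hψ h.modulus
  have h2 := h.res_norm hp hψ hV
  have h4 : (u * conj v + v * conj u) ^ 2 = (p : ℂ) * (u * conj u + v * conj v) ^ 2 -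
      2 * (u * conj u + v * conj v) ^ 2 - 1 / ((p : ℂ) + 1) := by
    have h5 : u * conj v + v * conj u = ((2 * (u * conj v).re : ℝ) : ℂ) := by
      rw [← Complex.add_conj, map_mul, Complex.conj_conj]; ring
    rw [h5, Complex.mul_conj, Complex.mul_conj]
    have := congrArg (Complex.ofReal) h1
    push_cast at this ⊢
    linear_combination -this
  rw [h4]
  have h5 : Res V ((p : ℂ) + 1) (0 + 1) := hV.add Res.one
  have h6 := (((hV.mul (h2.pow 2)).sub ((Res.natCast (V := V) 2).mul (h2.pow 2)))).sub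
    (Res.one.div h5 (by simp))
  have h7 : (0 : IsLocalRing.ResidueField V) * (-1) ^ 2 - ((2 : ℕ) : IsLocalRing.ResidueField V) * (-1) ^ 2 -
      1 / (0 + 1) = -3 := by push_cast; norm_num
  rw [h7] at h6
  exact h6

theorem Data.key (h : Data m V ι r η u v ψ) (hm : p = 2 * m + 1) (hm0 : 1 < m) (h3 : p % 4 = 3)
    (hψ : Fid ψ) (hV : Res V (p : ℂ) 0) (hrm : r < m) {Q : IsLocalRing.ResidueField V}
    (hQ : Res V (u * conj v + v * conj u) Q) {σ : ℂ} {s T : IsLocalRing.ResidueField V}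
    (hσ : Res V σ s) (hT : Res V (σ * (u * conj v)) T) :
    T = s * Q ∧ ∃ A B : IsLocalRing.ResidueField V, Res V (σ * (u * conj u)) A ∧
      Res V (σ * (v * conj v)) B ∧ A * B = 0 ∧ A + B = -s := by
  have hp : p ≠ 2 := by omega
  have hodd : Odd m := by rw [Nat.odd_iff]; omega
  have hN := h.res_norm hp hψ hV
  have hT' : Res V (σ * (v * conj u)) (s * Q - T) := by
    have := (hσ.mul hQ).sub hT
    have e : σ * (u * conj v + v * conj u) - σ * (u * conj v) = σ * (v * conj u) := by ring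
    rwa [e] at this
  have hsum : Res V (σ * (u * conj u) + σ * (v * conj v)) (-s) := by
    have := hσ.mul hN
    rw [mul_neg_one] at this
    rwa [mul_add] at this
  have hprod : Res V (σ * (u * conj u) * (σ * (v * conj v))) (T * (s * Q - T)) := by
    have := hT.mul hT'
    have e : σ * (u * conj v) * (σ * (v * conj u)) = σ * (u * conj u) * (σ * (v * conj v)) := by ring
    rwa [e] at this
  obtain ⟨A, hA⟩ := Res.of_quad hsum hprod
  have hB : Res V (σ * (v * conj v)) (-s - A) := by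
    have := hsum.sub hA
    have e : σ * (u * conj u) + σ * (v * conj v) - σ * (u * conj u) = σ * (v * conj v) := by ring
    rwa [e] at this
  obtain ⟨B, hBd⟩ : ∃ B, B = -s - A := ⟨_, rfl⟩
  rw [← hBd] at hB
  have hAB := (hA.mul hB).unique hprod
  obtain ⟨κ, hκ⟩ : ∃ κ, κ = ι (kap p m r) := ⟨_, rfl⟩
  have hκ0 : κ ≠ 0 := by
    rw [hκ, Ne, map_eq_zero]; exact kap_ne hm hm0 hrm
  have hJ := h.sJ hm hm0
  have hL' := h.sL' hm hm0 hodd hrm
  rw [← hκ] at hJ hL'
  have h1 : Res V (σ * ov ψ 1 0) (A * (-1) + T * 0 + (s * Q - T) * κ + B * (-1)) := by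
    have e : σ * ov ψ 1 0 = (σ * (u * conj u)) * (∑ j, η j * conj (η (j + 1))) +
      (σ * (u * conj v)) * (∑ j, η j * (conj (η (j + 1)) * (ch (j + 1) : ℤ))) +
      (σ * (v * conj u)) * (∑ j, (η j * (ch j : ℤ)) * conj (η (j + 1))) +
      (σ * (v * conj v)) * (∑ j, (η j * (ch j : ℤ)) * (conj (η (j + 1)) * (ch (j + 1) : ℤ))) := by
      rw [h.ov10]; ring
    rw [e]
    exact (((hA.mul (h.s1 hm hm0 hrm)).add (hT.mul (h.sL hm hm0 hrm))).add (hT'.mul hJ)).add
      (hB.mul (h.s2 hm hm0 hrm))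
  have h2 : Res V (σ * conj (ov ψ 1 0)) (A * (-1) + (s * Q - T) * (-κ) + T * 0 + B * (-1)) := by
    have e : σ * conj (ov ψ 1 0) = (σ * (u * conj u)) * (∑ j, conj (η j) * η (j + 1)) +
      (σ * (v * conj u)) * (∑ j, conj (η j) * (η (j + 1) * (ch (j + 1) : ℤ))) +
      (σ * (u * conj v)) * (∑ j, (conj (η j) * (ch j : ℤ)) * η (j + 1)) +
      (σ * (v * conj v)) * (∑ j, (conj (η j) * (ch j : ℤ)) * (η (j + 1) * (ch (j + 1) : ℤ))) := by
      rw [h.ov10']; ring
    rw [e]
    exact (((hA.mul (h.s1' hm hm0 hrm)).add (hT'.mul hL')).add (hT.mul (h.sJ' hm hm0 hrm))).add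
      (hB.mul (h.s2' hm hm0 hrm))
  have h4 : σ * ov ψ 1 0 * (σ * conj (ov ψ 1 0)) = σ ^ 2 * (1 / ((p : ℂ) + 1)) := by
    have h5 : ov ψ 1 0 * conj (ov ψ 1 0) = 1 / ((p : ℂ) + 1) := by
      rw [mul_comm, conj_mul_self', hψ.2 1 0 (fun h' => one_ne_zero (Prod.mk.inj h').1)]
      push_cast; ring
    linear_combination σ ^ 2 * h5
  have h5 : Res V ((p : ℂ) + 1) (0 + 1) := hV.add Res.one
  have h6 := (hσ.pow 2).mul (Res.one.div h5 (by simp))
  rw [← h4] at h6
  have h7 := (h1.mul h2).unique h6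
  have hABs : A + B = -s := by rw [hBd]; ring
  have h8 : ((s * Q - T) * κ) ^ 2 = 0 := by
    have h9 : (A * (-1) + T * 0 + (s * Q - T) * κ + B * (-1)) =
        s + (s * Q - T) * κ := by linear_combination -hABs
    have h10 : (A * (-1) + (s * Q - T) * (-κ) + T * 0 + B * (-1)) =
        s - (s * Q - T) * κ := by linear_combination -hABs
    rw [h9, h10] at h7
    have h11 : (1 : IsLocalRing.ResidueField V) / (0 + 1) = 1 := by norm_num
    rw [h11] at h7
    linear_combination -h7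
  have h9 : s * Q - T = 0 := by
    have := pow_eq_zero_iff (two_ne_zero) |>.1 h8
    exact (mul_eq_zero.1 this).resolve_right hκ0
  refine ⟨(sub_eq_zero.1 h9).symm, A, B, hA, hB, ?_, hABs⟩
  rw [hAB, h9, mul_zero]

theorem Data.residues (h : Data m V ι r η u v ψ) (hm : p = 2 * m + 1) (hm0 : 1 < m)
    (h3 : p % 4 = 3) (hψ : Fid ψ) (hV : Res V (p : ℂ) 0) (hrm : r < m) :
    ∃ T A B : IsLocalRing.ResidueField V, T ^ 2 = -3 ∧ Res V (u * conj v) T ∧
      Res V (v * conj u) 0 ∧ Res V (u * conj u) A ∧ Res V (v * conj v) B ∧ A * B = 0 ∧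
      A + B = -1 := by
  obtain ⟨Q, hQ, hQ3⟩ := Res.of_sq (h.res_Q h3 hψ hV)
  rcases Res.dich (V := V) (u * conj v) with ⟨T, hT⟩ | ⟨hne, hinv⟩
  · obtain ⟨h1, A, B, hA, hB, hAB, hABs⟩ := h.key hm hm0 h3 hψ hV hrm hQ Res.one
      (T := T) (by rwa [one_mul])
    rw [one_mul] at h1 hA hB
    refine ⟨T, A, B, by rw [h1]; exact hQ3, hT, ?_, hA, hB, hAB, hABs⟩
    have := hQ.sub hT
    rw [h1, sub_self] at this
    have e : u * conj v + v * conj u - u * conj v = v * conj u := by ring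
    rwa [e] at this
  · exfalso
    obtain ⟨h1, -⟩ := h.key hm hm0 h3 hψ hV hrm hQ hinv (T := 1)
      (by rw [inv_mul_cancel₀ hne]; exact Res.one)
    rw [zero_mul] at h1
    exact one_ne_zero h1

theorem no_eta_lt (h : Data m V ι r η u v ψ) (hm : p = 2 * m + 1) (hm0 : 1 < m) (h3 : p % 4 = 3)
    (hψ : Fid ψ) (hV : Res V (p : ℂ) 0) (hr0 : 0 < r) (hrm : r < m) : False := by
  have hodd : Odd m := by rw [Nat.odd_iff]; omega
  obtain ⟨T, A, B, hT2, hT, hT', hA, hB, hAB, hABs⟩ := h.residues hm hm0 h3 hψ hV hrm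
  obtain ⟨s, hs⟩ : ∃ s, s = 2 * m - r := ⟨_, rfl⟩
  have hres' := h.res'
  rw [← hs] at hres'
  have hc := res_ch (V := V) hm (by omega) ι
  -- the reduced quartic sums vanish
  have hz : ∀ x : ZMod p, x ≠ 0 → ∑ j, (ι j ^ r * ι (j + 1) ^ s * (A + T * ι (j + 1) ^ m +
      0 * ι j ^ m + B * (ι j ^ m * ι (j + 1) ^ m))) * (ι (j + x) ^ s * ι (j + 1 + x) ^ r *
      (A + T * ι (j + x) ^ m + 0 * ι (j + 1 + x) ^ m +
        B * (ι (j + 1 + x) ^ m * ι (j + x) ^ m))) = 0 := by
    intro x hx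
    have h1 := TT_eq hψ 1 x
    rw [if_neg one_ne_zero, if_neg hx, add_zero, zero_div] at h1
    have h2 : TT ψ 1 x = ∑ j, (η j * conj (η (j + 1)) * (u * conj u + u * conj v * ch (j + 1) +
        v * conj u * ch j + v * conj v * (ch j * ch (j + 1)))) *
        (conj (η (j + x)) * η (j + 1 + x) * (u * conj u + u * conj v * ch (j + x) +
        v * conj u * ch (j + 1 + x) + v * conj v * (ch (j + 1 + x) * ch (j + x)))) := by
      unfold TT
      refine Finset.sum_congr rfl fun j _ => ?_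
      rw [h.eq j, h.eq (j + 1), h.eq (j + x), h.eq (j + 1 + x)]
      simp only [map_add, map_mul, map_intCast]
      ring
    rw [h2] at h1
    have h4 := Res.sum (V := V) (Finset.univ : Finset (ZMod p))
      (f := fun j => (η j * conj (η (j + 1)) * (u * conj u + u * conj v * ch (j + 1) +
        v * conj u * ch j + v * conj v * (ch j * ch (j + 1)))) *
        (conj (η (j + x)) * η (j + 1 + x) * (u * conj u + u * conj v * ch (j + x) +
        v * conj u * ch (j + 1 + x) + v * conj v * (ch (j + 1 + x) * ch (j + x)))))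
      (g := fun j => (ι j ^ r * ι (j + 1) ^ s * (A + T * ι (j + 1) ^ m +
      0 * ι j ^ m + B * (ι j ^ m * ι (j + 1) ^ m))) * (ι (j + x) ^ s * ι (j + 1 + x) ^ r *
      (A + T * ι (j + x) ^ m + 0 * ι (j + 1 + x) ^ m +
        B * (ι (j + 1 + x) ^ m * ι (j + x) ^ m))))
      (fun j _ => (((h.res j).mul (hres' (j + 1))).mul (((hA.add (hT.mul (hc (j + 1)))).add
        (hT'.mul (hc j))).add (hB.mul ((hc j).mul (hc (j + 1)))))).mul
        (((hres' (j + x)).mul (h.res (j + 1 + x))).mul (((hA.add (hT.mul (hc (j + x)))).add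
        (hT'.mul (hc (j + 1 + x)))).add (hB.mul ((hc (j + 1 + x)).mul (hc (j + x)))))))
    rw [h1] at h4
    exact h4.unique Res.zero
  have hz2 : ∑ x : ZMod p, ι x ^ (2 * m - 1) * ∑ j, (ι j ^ r * ι (j + 1) ^ s *
      (A + T * ι (j + 1) ^ m + 0 * ι j ^ m + B * (ι j ^ m * ι (j + 1) ^ m))) *
      (ι (j + x) ^ s * ι (j + 1 + x) ^ r *
      (A + T * ι (j + x) ^ m + 0 * ι (j + 1 + x) ^ m +
        B * (ι (j + 1 + x) ^ m * ι (j + x) ^ m))) = 0 := by
    refine Finset.sum_eq_zero fun x _ => ?_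
    by_cases hx : x = 0
    · rw [hx, map_zero, zero_pow (by omega), zero_mul]
    · rw [hz x hx, mul_zero]
  have hDS : ∀ a b c d : ℕ, ι (DS p m a b c d) = ∑ x : ZMod p, ι x ^ (2 * m - 1) *
      ∑ j, ι j ^ a * ι (j + 1) ^ b * ι (j + x) ^ c * ι (j + 1 + x) ^ d := by
    intro a b c d
    unfold DS
    simp only [map_sum, map_mul, map_pow]
  have hexp : ∀ j x : ZMod p, (ι j ^ r * ι (j + 1) ^ s *
      (A + T * ι (j + 1) ^ m + 0 * ι j ^ m + B * (ι j ^ m * ι (j + 1) ^ m))) *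
      (ι (j + x) ^ s * ι (j + 1 + x) ^ r *
      (A + T * ι (j + x) ^ m + 0 * ι (j + 1 + x) ^ m +
        B * (ι (j + 1 + x) ^ m * ι (j + x) ^ m))) =
      A ^ 2 * (ι j ^ r * ι (j + 1) ^ s * ι (j + x) ^ s * ι (j + 1 + x) ^ r) +
      A * T * (ι j ^ r * ι (j + 1) ^ (s + m) * ι (j + x) ^ s * ι (j + 1 + x) ^ r) +
      A * T * (ι j ^ r * ι (j + 1) ^ s * ι (j + x) ^ (s + m) * ι (j + 1 + x) ^ r) +
      T ^ 2 * (ι j ^ r * ι (j + 1) ^ (s + m) * ι (j + x) ^ (s + m) * ι (j + 1 + x) ^ r) +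
      T * B * (ι j ^ (r + m) * ι (j + 1) ^ (s + m) * ι (j + x) ^ (s + m) * ι (j + 1 + x) ^ r) +
      T * B * (ι j ^ r * ι (j + 1) ^ (s + m) * ι (j + x) ^ (s + m) * ι (j + 1 + x) ^ (r + m)) +
      B ^ 2 * (ι j ^ (r + m) * ι (j + 1) ^ (s + m) * ι (j + x) ^ (s + m) *
        ι (j + 1 + x) ^ (r + m)) := by
    intro j x
    simp only [pow_add]
    linear_combination (ι j ^ r * ι (j + 1) ^ s * ι (j + x) ^ s * ι (j + 1 + x) ^ r *
      (ι (j + 1 + x) ^ m * ι (j + x) ^ m + ι j ^ m * ι (j + 1) ^ m)) * hAB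
  simp only [hexp] at hz2
  simp only [Finset.sum_add_distrib, ← Finset.mul_sum] at hz2
  simp only [mul_add, Finset.sum_add_distrib] at hz2
  have hpull : ∀ (c : IsLocalRing.ResidueField V) (F : ZMod p → IsLocalRing.ResidueField V),
      ∑ x : ZMod p, ι x ^ (2 * m - 1) * (c * F x) = c * ∑ x : ZMod p, ι x ^ (2 * m - 1) * F x := by
    intro c F
    rw [Finset.mul_sum]
    refine Finset.sum_congr rfl fun x _ => ?_
    ring
  rw [hpull, hpull, hpull, hpull, hpull, hpull, hpull] at hz2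
  rw [← hDS, ← hDS, ← hDS, ← hDS, ← hDS, ← hDS, ← hDS] at hz2
  have hs3 : s + m = 3 * m - r := by omega
  have k1 : DS p m r s s r = 2 * r + 1 := by rw [hs]; exact ds1 hm hm0 hr0 hrm
  have k2 : DS p m r (s + m) (s + m) r = 0 := by
    rw [hs3, ds_red hm hrm]; exact ds3 hm hm0 hr0 hrm
  have k3 : DS p m (r + m) (s + m) (s + m) (r + m) = 2 * r := by
    rw [hs3, ds_red hm hrm]; exact ds2 hm hm0 hr0 hrm
  have k4 : DS p m r (s + m) s r + DS p m r s (s + m) r = 0 := by
    apply DS_symm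
    rw [show r + (s + m) + s + r = 5 * m by omega]
    exact (show Odd 5 by decide).mul hodd
  have k5 : DS p m (r + m) (s + m) (s + m) r + DS p m r (s + m) (s + m) (r + m) = 0 := by
    apply DS_symm
    rw [show r + m + (s + m) + (s + m) + r = 7 * m by omega]
    exact (show Odd 7 by decide).mul hodd
  rw [k1, k2, k3] at hz2
  have k4' := congrArg ι k4
  have k5' := congrArg ι k5
  rw [map_add, map_zero] at k4' k5'
  rw [map_zero] at hz2
  have hfin : A ^ 2 * ι (2 * r + 1) + B ^ 2 * ι (2 * r) = 0 := by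
    linear_combination hz2 - (A * T) * k4' - (T * B) * k5'
  rcases mul_eq_zero.1 hAB with h0 | h0
  · rw [h0, zero_add] at hABs
    rw [h0, hABs] at hfin
    have h5 : ι (2 * r) = 0 := by linear_combination hfin
    rw [map_eq_zero] at h5
    have h6 : ((2 * r : ℕ) : ZMod p) = 0 := by push_cast; exact h5
    have h7 := Nat.le_of_dvd (by omega) ((ZMod.natCast_eq_zero_iff _ p).1 h6)
    omega
  · rw [h0, add_zero] at hABs
    rw [h0, hABs] at hfin
    have h5 : ι (2 * r + 1) = 0 := by linear_combination hfin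
    rw [map_eq_zero] at h5
    have h6 : ((2 * r + 1 : ℕ) : ZMod p) = 0 := by push_cast; exact h5
    have h7 := Nat.le_of_dvd (by omega) ((ZMod.natCast_eq_zero_iff _ p).1 h6)
    omega

end Pool.Agent.K3h22.SL
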