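import Mathlib
import Pool.Agent.K3h22.SL.H6

set_option autoImplicit false

/-! # Fiducial vectors with a dilation symmetry of order `(p - 1) / 2` -/

namespace Pool.Agent.K3h22.SL

open Finset Complex
open scoped ComplexConjugate
open Pool.Agent.R503.SIC

theorem f2 : ∀ g : ZMod 2, g ≠ 0 → g = 1 ∨ g = -1 := by decide

theorem f3 : ∀ g : ZMod 3, g ≠ 0 → g = 1 ∨ g = -1 := by decide

variable {p : ℕ} [Fact p.Prime]

theorem no_eta {m : ℕ} (hm : p = 2 * m + 1) (hm0 : 1 < m) (h3 : p % 4 = 3) {ψ c : ZMod p → ℂ}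
    (hψ : Fid ψ) (h : Eig ψ c) {g : ZMod p} (hg : g ≠ 0) : c g = 1 := by
  by_contra hne
  have hp : p.Prime := Fact.out
  obtain ⟨V, hV⟩ := exists_place hp
  have := charP_res hp hV
  obtain ⟨r, η, hr, hr0, hr2, h1, h2, h4, h5, h6⟩ := exists_eta (V := V) hm (by omega) h3 h
    ⟨g, hg, hne⟩
  have hodd : Odd m := by rw [Nat.odd_iff]; omega
  have hrm : r ≠ m := by
    rintro rfl
    exact (Nat.not_even_iff_odd.2 hodd) hr
  obtain ⟨u, hu⟩ : ∃ u, u = (ψ 1 + ψ (-1)) / 2 := ⟨_, rfl⟩
  obtain ⟨v, hv⟩ : ∃ v, v = (ψ 1 - ψ (-1)) / 2 := ⟨_, rfl⟩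
  rw [← hu, ← hv] at h6
  have hD : Data m V (ZMod.castHom (dvd_refl p) (IsLocalRing.ResidueField V)) r η u v ψ :=
    ⟨h1, h2, h4, h5, h6⟩
  rcases lt_or_gt_of_ne hrm with hlt | hgt
  · exact no_eta_lt hD hm hm0 h3 hψ hV hr0 hlt
  · have hD' : Data m V (ZMod.castHom (dvd_refl p) (IsLocalRing.ResidueField V)) (2 * m - r)
        (fun j => conj (η j)) (conj u) (conj v) (fun j => conj (ψ j)) := by
      refine ⟨h2, ?_, ?_, ?_, ?_⟩
      · intro j
        simp only [Complex.conj_conj]
        rw [show 2 * m - (2 * m - r) = r by omega]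
        exact h1 j
      · intro j hj
        simp only [Complex.conj_conj]
        rw [mul_comm]; exact h4 j hj
      · simp only [h5, map_zero]
      · intro j
        simp only [h6 j, map_mul, map_add, map_intCast]
    exact no_eta_lt hD' hm hm0 h3 (fid_conj hψ) hV (by omega) (by omega)

/-- **Eigenvectors of all square dilations.** -/
theorem main2 {ψ c : ZMod p → ℂ} (hψ : Fid ψ)
    (h : ∀ g j : ZMod p, g ≠ 0 → ψ (g ^ 2 * j) = c g * ψ j) :
    (p = 2 ∨ p = 3 ∨ p = 7 ∨ p = 19) ∧ ∀ g : ZMod p, g ≠ 0 → c g = 1 := by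
  have hp : p.Prime := Fact.out
  have hE : Eig ψ c := ⟨h, exists_ne hψ.1⟩
  have hc : ∀ g : ZMod p, g ≠ 0 → c g = 1 := by
    intro g hg
    by_cases hp5 : p < 5
    · have hsq : g = 1 ∨ g = -1 := by
        have h23 : p = 2 ∨ p = 3 := by
          interval_cases p
          · norm_num at hp
          · norm_num at hp
          · left; rfl
          · right; rfl
          · norm_num at hp
        rcases h23 with rfl | rfl
        · exact f2 g hg
        · exact f3 g hg
      rcases hsq with rfl | rfl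
      · exact hE.c_one
      · exact hE.c_neg_one
    · push Not at hp5
      have hodd : p % 2 = 1 := (hp.eq_two_or_odd).resolve_left (by omega)
      have h4 : p % 4 = 1 ∨ p % 4 = 3 := by omega
      rcases h4 with h4 | h4
      · exfalso
        have h1 : IsSquare (-1 : ZMod p) := by
          rw [ZMod.exists_sq_eq_neg_one_iff]; omega
        obtain ⟨i, hi⟩ := h1
        have hi0 : i ≠ 0 := by
          rintro rfl
          rw [mul_zero] at hi
          exact one_ne_zero (neg_eq_zero.1 hi)
        have hs : Sym ψ (-1) 0 0 (c i) := by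
          refine ⟨by ring, fun j => ?_⟩
          rw [zero_mul, e_zero, mul_one, add_zero, ← h i j hi0, pow_two, ← hi]
        have h1 : (-1 : ZMod p) ≠ 1 := by
          intro h'
          have h2 : ((2 : ℕ) : ZMod p) = 0 := by
            push_cast
            linear_combination -h'
          have := Nat.le_of_dvd (by norm_num) ((ZMod.natCast_eq_zero_iff 2 p).1 h2)
          omega
        obtain ⟨t, ht, -⟩ := dilation hψ hs h1
        rcases primePow ht hp.isPrimePow with h2 | h2
        · omega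
        · rw [h2] at hp; norm_num at hp
      · obtain ⟨m, hm⟩ : ∃ m, p = 2 * m + 1 := ⟨p / 2, by omega⟩
        exact no_eta hm (by omega) h4 hψ hE hg
  refine ⟨main hψ fun g j hg => ?_, hc⟩
  rw [h g j hg, hc g hg, one_mul]

/-- displaced vectors -/
theorem fid_disp {d : ℕ} [NeZero d] {ψ : ZMod d → ℂ} (hψ : Fid ψ) (x β : ZMod d) :
    Fid (fun j => ψ (j + x) * e (β * j)) := by
  refine ⟨?_, fun a b hab => ?_⟩
  · simp only [norm_mul, norm_e, mul_one]
    rw [← hψ.1]
    exact Fintype.sum_equiv (Equiv.addRight x) _ _ fun j => rfl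
  · have h1 : ov (fun j => ψ (j + x) * e (β * j)) a b = e (-(β * a) - b * x) * ov ψ a b := by
      unfold ov
      rw [Finset.mul_sum]
      refine Fintype.sum_equiv (Equiv.addRight x) _ _ fun j => ?_
      simp only [Equiv.coe_addRight, map_mul, conj_e]
      have e1 : e (-(β * (j + a))) * e (b * j) * e (β * j) = e (-(β * a) - b * x) * e (b * (j + x)) := by
        rw [← e_add, ← e_add, ← e_add]; congr 1; ring
      have e2 : j + a + x = j + x + a := by ring
      rw [e2]
      linear_combination (conj (ψ (j + x + a)) * ψ (j + x)) * e1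
    rw [h1, norm_mul, norm_e, one_mul]
    exact hψ.2 a b hab

/-- **Dilation symmetries generating the squares.** -/
theorem main3 {ψ : ZMod p → ℂ} (hψ : Fid ψ) {k a b : ZMod p} {c : ℂ}
    (hk : ∀ g : ZMod p, g ≠ 0 → ∃ n : ℕ, g ^ 2 = k ^ n)
    (h : ∀ j, ψ (k * j + a) = c * e (b * j) * ψ j) : p = 2 ∨ p = 3 ∨ p = 7 ∨ p = 19 := by
  have hp : p.Prime := Fact.out
  by_cases hp5 : p < 5
  · interval_cases p
    · norm_num at hp
    · norm_num at hp
    · norm_num
    · norm_num
    · norm_num at hp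
  push Not at hp5
  have h2 : (2 : ZMod p) ≠ 0 := by
    intro h'
    have := Nat.le_of_dvd (by norm_num) ((ZMod.natCast_eq_zero_iff 2 p).1 (by exact_mod_cast h'))
    omega
  have h3 : (3 : ZMod p) ≠ 0 := by
    intro h'
    have := Nat.le_of_dvd (by norm_num) ((ZMod.natCast_eq_zero_iff 3 p).1 (by exact_mod_cast h'))
    omega
  have hk1 : k - 1 ≠ 0 := by
    intro h'
    obtain ⟨n, hn⟩ := hk 2 h2
    rw [sub_eq_zero.1 h', one_pow] at hn
    exact h3 (by linear_combination hn)
  obtain ⟨x, hx⟩ : ∃ x : ZMod p, k * x + a = x := by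
    refine ⟨-a / (k - 1), ?_⟩
    field_simp
    ring
  obtain ⟨β, hβ⟩ : ∃ β : ZMod p, b + β * k = β := by
    refine ⟨-b / (k - 1), ?_⟩
    field_simp
    ring
  obtain ⟨φ, hφ⟩ : ∃ φ : ZMod p → ℂ, φ = fun j => ψ (j + x) * e (β * j) := ⟨_, rfl⟩
  have hfid : Fid φ := by rw [hφ]; exact fid_disp hψ x β
  have hstep : ∀ j, φ (k * j) = (c * e (b * x)) * φ j := by
    intro j
    rw [hφ]
    simp only
    have e1 : k * j + x = k * (j + x) + a := by linear_combination -hx
    have e2 : e (b * (j + x)) * e (β * (k * j)) = e (b * x) * e (β * j) := by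
      rw [← e_add, ← e_add]; congr 1; linear_combination j * hβ
    rw [e1, h]
    linear_combination (c * ψ (j + x)) * e2
  have hpow : ∀ (n : ℕ) j, φ (k ^ n * j) = (c * e (b * x)) ^ n * φ j := by
    intro n
    induction n with
    | zero => intro j; rw [pow_zero, pow_zero, one_mul, one_mul]
    | succ n ih =>
      intro j
      rw [pow_succ', mul_assoc, hstep, ih, pow_succ']; ring
  choose! N hN using hk
  exact (main2 (c := fun g => (c * e (b * x)) ^ N g) hfid fun g j hg => by rw [hN g hg, hpow]).1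

end Pool.Agent.K3h22.SL
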